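import Mathlib
import Pool.Agent.H95.QC.Targets

open MeasureTheory ProbabilityTheory Filter Topology
open scoped ENNReal NNReal BigOperators

namespace Pool.Agent.H58.QC

open Pool.Agent.H95.QC

/-- cubic expansion bound -/
lemma abs_add_cube_le (a t : ℝ) :
    |a + t| ^ 3 ≤ |a| ^ 3 + 3 * a * |a| * t + 3 * |a| * t ^ 2 + |t| ^ 3 := by
  rcases le_total 0 a with ha | ha <;> rcases le_total 0 (a + t) with h | h <;>
    rcases le_total 0 t with ht | ht
  all_goals simp only [abs_of_nonneg, abs_of_nonpos, ha, h, ht]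
  · nlinarith
  · nlinarith [pow_nonneg (neg_nonneg.mpr ht) 3]
  · have e : a = 0 := by linarith
    have e' : t = 0 := by linarith
    subst e; subst e'; simp
  · nlinarith [mul_nonneg ha (sq_nonneg (2 * a + 3 * t)), mul_nonneg ha (sq_nonneg t)]
  · have hna : 0 ≤ -a := neg_nonneg.mpr ha
    nlinarith [mul_nonneg hna (sq_nonneg (2 * a + 3 * t)), mul_nonneg hna (sq_nonneg t)]
  · have e : a = 0 := by linarith
    have e' : t = 0 := by linarith
    subst e; subst e'; simp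
  · have : 0 ≤ t ^ 3 := pow_nonneg ht 3
    nlinarith
  · nlinarith

/-- the polynomial inequality behind `E|Y|³ ≤ W^{3/2}` -/
lemma cube_bound (A x m D : ℝ) (hA : 0 ≤ A) (hx : 0 ≤ x) (hm : 0 ≤ m) (hD : 4 ≤ D)
    (hm2 : 4 * m ^ 2 ≤ (D * x) ^ 3) :
    (A ^ 3 + 3 * A * x + m) ^ 2 ≤ (A ^ 2 + D * x) ^ 3 := by
  have h4 : 4 * x ≤ D * x := by nlinarith
  set X := D * x with hX
  have hX0 : 0 ≤ X := by positivity
  -- 2 A^3 m ≤ (A^4 X + A^2 X^2)/2
  have h1 : 2 * A ^ 3 * m ≤ (A ^ 4 * X + A ^ 2 * X ^ 2) / 2 := by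
    rcases eq_or_lt_of_le hX0 with h0 | h0
    · have : m = 0 := by
        rw [← h0] at hm2; nlinarith
      rw [this, ← h0]; simp
    · have hsq : (2 * A ^ 3 * m) ^ 2 ≤ ((A ^ 4 * X + A ^ 2 * X ^ 2) / 2) ^ 2 := by
        have : 4 * (A ^ 6 * m ^ 2) ≤ A ^ 6 * X ^ 3 := by
          have := mul_le_mul_of_nonneg_left hm2 (by positivity : (0 : ℝ) ≤ A ^ 6)
          linarith
        have h2 : A ^ 6 * X ^ 3 ≤ ((A ^ 4 * X + A ^ 2 * X ^ 2) / 2) ^ 2 := by
          nlinarith [sq_nonneg (A ^ 4 * X - A ^ 2 * X ^ 2)]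
        calc (2 * A ^ 3 * m) ^ 2 = 4 * (A ^ 6 * m ^ 2) := by ring
          _ ≤ _ := this.trans h2
      exact (abs_le_of_sq_le_sq' hsq (by positivity)).2
  -- 6 A x m ≤ (3/8) (A^2 X^2 + X^3)
  have h2 : 6 * A * x * m ≤ 3 / 8 * (A ^ 2 * X ^ 2 + X ^ 3) := by
    have h3 : 6 * A * x * m ≤ 3 / 2 * (A * X) * m := by
      have : 0 ≤ A * m := by positivity
      nlinarith
    refine h3.trans ?_
    -- A X m ≤ (A^2 X^2 + 4 m^2... )
    have h5 : (A * X) * m ≤ 1 / 4 * (A ^ 2 * X ^ 2 + X ^ 3) := by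
      nlinarith [sq_nonneg (A * X - 2 * m)]
    linarith
  have h6 : 0 ≤ A ^ 4 := by positivity
  have h7 : 0 ≤ A ^ 2 := by positivity
  have h8 : 6 * A ^ 4 * x ≤ 3 / 2 * A ^ 4 * X := by nlinarith
  have h9 : 9 * A ^ 2 * x ^ 2 ≤ 9 / 16 * A ^ 2 * X ^ 2 := by
    have : 16 * x ^ 2 ≤ X ^ 2 := by nlinarith
    nlinarith
  have h10 : 0 ≤ A ^ 4 * X := by positivity
  have h11 : 0 ≤ A ^ 2 * X ^ 2 := by positivity
  have h12 : 0 ≤ X ^ 3 := by positivity
  nlinarith

lemma geom_interp (δ V W t : ℝ) (hδ : 0 < δ) (hδ1 : δ ≤ 1) (hV : 0 < V) (hW : 0 < W) (ht : 0 ≤ t) :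
    t ^ (2 + δ) ≤ V ^ (1 - δ) * W ^ (3 / 2 * δ) *
      ((1 - δ) * (t ^ 2 / V) + δ * (t ^ 3 / W ^ (3 / 2 : ℝ))) := by
  have h := Real.geom_mean_le_arith_mean2_weighted (w₁ := 1 - δ) (w₂ := δ) (p₁ := t ^ 2 / V)
    (p₂ := t ^ 3 / W ^ (3 / 2 : ℝ)) (by linarith) hδ.le (by positivity) (by positivity) (by ring)
  have e : (t ^ 2 / V) ^ (1 - δ) * (t ^ 3 / W ^ (3 / 2 : ℝ)) ^ δ =
      t ^ (2 + δ) / (V ^ (1 - δ) * W ^ (3 / 2 * δ)) := by
    rw [Real.div_rpow (by positivity) hV.le, Real.div_rpow (by positivity) (by positivity),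
      ← Real.rpow_mul hW.le, ← Real.rpow_natCast, ← Real.rpow_natCast, ← Real.rpow_mul ht,
      ← Real.rpow_mul ht, div_mul_div_comm]
    congr 1
    rcases eq_or_lt_of_le ht with h0 | h0
    · rw [← h0, Real.zero_rpow (by linarith : (2 : ℝ) + δ ≠ 0),
        Real.zero_rpow (x := ((3 : ℕ) : ℝ) * δ) (by push_cast; positivity), mul_zero]
    · rw [← Real.rpow_add h0]
      congr 1
      push_cast; ring
  rw [e] at h
  have hc : 0 < V ^ (1 - δ) * W ^ (3 / 2 * δ) := by positivity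
  rw [div_le_iff₀ hc] at h
  linarith

lemma final_interp (δ V W D a2 x : ℝ) (hδ : 0 < δ) (hδ1 : δ ≤ 1) (hV : 0 < V) (hW : 0 < W)
    (hVe : V = a2 + x) (hWe : W = a2 + D * x) (hx : 0 ≤ x) (hD : 0 ≤ D) :
    V ^ (1 - δ) * W ^ (3 / 2 * δ) ≤ (a2 + (1 + 3 * δ / 2 * D) * x) ^ ((2 + δ) / 2) := by
  have hp : 0 < 2 + δ := by linarith
  have h := Real.geom_mean_le_arith_mean2_weighted (w₁ := 2 * (1 - δ) / (2 + δ))
    (w₂ := 3 * δ / (2 + δ)) (p₁ := V) (p₂ := W)
    (div_nonneg (by linarith) hp.le) (by positivity) hV.le hW.le (by field_simp; ring)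
  have h2 : 2 * (1 - δ) / (2 + δ) * V + 3 * δ / (2 + δ) * W ≤ a2 + (1 + 3 * δ / 2 * D) * x := by
    have e : 2 * (1 - δ) / (2 + δ) * V + 3 * δ / (2 + δ) * W =
        (2 * (1 - δ) * V + 3 * δ * W) / (2 + δ) := by ring
    rw [e, div_le_iff₀ hp, hVe, hWe]
    have h3 : 0 ≤ D * x := by positivity
    have h4 : 0 ≤ δ * x := by positivity
    have h5 : 0 ≤ δ ^ 2 * (D * x) := by positivity
    nlinarith
  have h3 := Real.rpow_le_rpow (by positivity) (h.trans h2) (by positivity : 0 ≤ (2 + δ) / 2)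
  refine le_trans (le_of_eq ?_) h3
  rw [Real.mul_rpow (by positivity) (by positivity), ← Real.rpow_mul hV.le, ← Real.rpow_mul hW.le]
  congr 2
  · field_simp
  · field_simp

theorem h1 : TargetH1 := by
  intro ν _ s M3 δ D hs hδ hδ1 hD hM hint hmean hvar hM3 a b
  have hx0 : 0 ≤ s * b ^ 2 := by positivity
  have hi1 : Integrable (fun y : ℝ => y) ν := by
    refine ((integrable_const (1 : ℝ)).add hint).mono' (by fun_prop) ?_
    filter_upwards with y
    simp only [Real.norm_eq_abs, Pi.add_apply]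
    have := abs_nonneg y
    rcases le_total |y| 1 with h | h
    · nlinarith [pow_nonneg this 3]
    · nlinarith [one_le_pow₀ h (n := 2)]
  have hi2 : Integrable (fun y : ℝ => y ^ 2) ν := by
    refine ((integrable_const (1 : ℝ)).add hint).mono' (by fun_prop) ?_
    filter_upwards with y
    simp only [Real.norm_eq_abs, Pi.add_apply, abs_pow]
    have := abs_nonneg y
    rcases le_total |y| 1 with h | h
    · nlinarith [pow_nonneg this 3, pow_le_one₀ this h (n := 2)]
    · nlinarith [one_le_pow₀ h (n := 2)]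
  have hM30 : 0 ≤ M3 := le_trans (integral_nonneg (fun y => by positivity)) hM3
  -- second moment
  have hY2 : ∫ y, (a + y * b) ^ 2 ∂ν = a ^ 2 + s * b ^ 2 := by
    have e : (fun y : ℝ => (a + y * b) ^ 2) = fun y => a ^ 2 + (2 * a * b * y + b ^ 2 * y ^ 2) := by
      funext y; ring
    have i1 : Integrable (fun y : ℝ => 2 * a * b * y) ν := hi1.const_mul _
    have i2 : Integrable (fun y : ℝ => b ^ 2 * y ^ 2) ν := hi2.const_mul _
    have i12 : Integrable (fun y : ℝ => 2 * a * b * y + b ^ 2 * y ^ 2) ν := i1.add i2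
    rw [e, integral_add (integrable_const _) i12,
      integral_add i1 i2, integral_const_mul, integral_const_mul,
      hmean, hvar]
    simp; ring
  have hiY2 : Integrable (fun y : ℝ => (a + y * b) ^ 2) ν := by
    have e : (fun y : ℝ => (a + y * b) ^ 2) = fun y => a ^ 2 + (2 * a * b * y + b ^ 2 * y ^ 2) := by
      funext y; ring
    rw [e]
    exact (integrable_const _).add ((hi1.const_mul _).add (hi2.const_mul _))
  -- third moment
  have hg : Integrable (fun y : ℝ => |a| ^ 3 + (3 * a * |a| * b * y +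
      (3 * |a| * b ^ 2 * y ^ 2 + |b| ^ 3 * |y| ^ 3))) ν :=
    (integrable_const _).add ((hi1.const_mul _).add ((hi2.const_mul _).add (hint.const_mul _)))
  have hle3 : ∀ y : ℝ, |a + y * b| ^ 3 ≤ |a| ^ 3 + (3 * a * |a| * b * y +
      (3 * |a| * b ^ 2 * y ^ 2 + |b| ^ 3 * |y| ^ 3)) := by
    intro y
    have := abs_add_cube_le a (y * b)
    rw [abs_mul, mul_pow, mul_pow] at this
    linarith
  have hY3 : ∫ y, |a + y * b| ^ 3 ∂ν ≤ |a| ^ 3 + 3 * |a| * (s * b ^ 2) + M3 * |b| ^ 3 := by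
    calc ∫ y, |a + y * b| ^ 3 ∂ν ≤ ∫ y, (|a| ^ 3 + (3 * a * |a| * b * y +
        (3 * |a| * b ^ 2 * y ^ 2 + |b| ^ 3 * |y| ^ 3))) ∂ν := by
          apply integral_mono_of_nonneg
          · filter_upwards with y; positivity
          · exact hg
          · filter_upwards with y; exact hle3 y
      _ = |a| ^ 3 + 3 * |a| * (s * b ^ 2) + |b| ^ 3 * ∫ y, |y| ^ 3 ∂ν := by
          have i1 : Integrable (fun y : ℝ => 3 * a * |a| * b * y) ν := hi1.const_mul _
          have i2 : Integrable (fun y : ℝ => 3 * |a| * b ^ 2 * y ^ 2) ν := hi2.const_mul _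
          have i3 : Integrable (fun y : ℝ => |b| ^ 3 * |y| ^ 3) ν := hint.const_mul _
          have i23 : Integrable (fun y : ℝ => 3 * |a| * b ^ 2 * y ^ 2 + |b| ^ 3 * |y| ^ 3) ν :=
            i2.add i3
          have i123 : Integrable (fun y : ℝ => 3 * a * |a| * b * y +
            (3 * |a| * b ^ 2 * y ^ 2 + |b| ^ 3 * |y| ^ 3)) ν := i1.add i23
          rw [integral_add (integrable_const _) i123, integral_add i1 i23,
            integral_add i2 i3, integral_const_mul,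
            integral_const_mul, integral_const_mul, hmean, hvar]
          simp; ring
      _ ≤ _ := by
          have : 0 ≤ |b| ^ 3 := by positivity
          nlinarith
  have hiY3 : Integrable (fun y : ℝ => |a + y * b| ^ 3) ν := by
    refine hg.mono' (by fun_prop) ?_
    filter_upwards with y
    rw [Real.norm_eq_abs, abs_of_nonneg (by positivity)]
    exact hle3 y
  -- degenerate case
  rcases eq_or_ne (a ^ 2 + s * b ^ 2) 0 with h0 | h0
  · have ha : a = 0 := by
      have : a ^ 2 = 0 := by nlinarith [sq_nonneg a]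
      exact pow_eq_zero_iff (two_ne_zero) |>.mp this
    have hb : b = 0 := by
      have : s * b ^ 2 = 0 := by nlinarith [sq_nonneg a]
      have := (mul_eq_zero.mp this).resolve_left hs.ne'
      exact pow_eq_zero_iff (two_ne_zero) |>.mp this
    subst ha; subst hb
    simp [Real.zero_rpow (by linarith : (2 : ℝ) + δ ≠ 0)]
    positivity
  have hV : 0 < a ^ 2 + s * b ^ 2 := lt_of_le_of_ne (by positivity) (Ne.symm h0)
  have hW : 0 < a ^ 2 + D * (s * b ^ 2) := by
    have : s * b ^ 2 ≤ D * (s * b ^ 2) := by nlinarith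
    linarith
  -- third moment by W^{3/2}
  have hcube : |a| ^ 3 + 3 * |a| * (s * b ^ 2) + M3 * |b| ^ 3 ≤
      (a ^ 2 + D * (s * b ^ 2)) ^ (3 / 2 : ℝ) := by
    have hm2 : 4 * (M3 * |b| ^ 3) ^ 2 ≤ (D * (s * b ^ 2)) ^ 3 := by
      have hb6 : (|b| ^ 3) ^ 2 = (b ^ 2) ^ 3 := by
        rw [← sq_abs b]; ring
      calc 4 * (M3 * |b| ^ 3) ^ 2 = 4 * M3 ^ 2 * (b ^ 2) ^ 3 := by rw [mul_pow, hb6]; ring
        _ ≤ (D * s) ^ 3 * (b ^ 2) ^ 3 := mul_le_mul_of_nonneg_right hM (by positivity)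
        _ = _ := by ring
    have h := cube_bound |a| (s * b ^ 2) (M3 * |b| ^ 3) D (abs_nonneg a) hx0 (by positivity) hD hm2
    rw [sq_abs] at h
    have e3 : ((a ^ 2 + D * (s * b ^ 2)) ^ (3 / 2 : ℝ)) ^ 2 = (a ^ 2 + D * (s * b ^ 2)) ^ 3 := by
      rw [← Real.rpow_natCast, ← Real.rpow_mul hW.le, ← Real.rpow_natCast]
      norm_num
    rw [← e3] at h
    exact (abs_le_of_sq_le_sq' h (by positivity)).2
  set V := a ^ 2 + s * b ^ 2 with hVdef
  set W := a ^ 2 + D * (s * b ^ 2) with hWdef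
  have hmain : ∫ y, |a + y * b| ^ (2 + δ) ∂ν ≤ V ^ (1 - δ) * W ^ (3 / 2 * δ) := by
    calc ∫ y, |a + y * b| ^ (2 + δ) ∂ν ≤ ∫ y, V ^ (1 - δ) * W ^ (3 / 2 * δ) *
        ((1 - δ) * ((a + y * b) ^ 2 / V) + δ * (|a + y * b| ^ 3 / W ^ (3 / 2 : ℝ))) ∂ν := by
          apply integral_mono_of_nonneg
          · filter_upwards with y; positivity
          · exact (((hiY2.div_const _).const_mul _).add ((hiY3.div_const _).const_mul _)).const_mul _
          · filter_upwards with y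
            have := geom_interp δ V W |a + y * b| hδ hδ1 hV hW (abs_nonneg _)
            rwa [sq_abs] at this
      _ = V ^ (1 - δ) * W ^ (3 / 2 * δ) * ((1 - δ) * ((∫ y, (a + y * b) ^ 2 ∂ν) / V) +
          δ * ((∫ y, |a + y * b| ^ 3 ∂ν) / W ^ (3 / 2 : ℝ))) := by
          rw [integral_const_mul, integral_add ((hiY2.div_const _).const_mul _)
            ((hiY3.div_const _).const_mul _), integral_const_mul, integral_const_mul,
            integral_div, integral_div]
      _ ≤ V ^ (1 - δ) * W ^ (3 / 2 * δ) * 1 := by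
          apply mul_le_mul_of_nonneg_left _ (by positivity)
          rw [hY2, div_self hV.ne']
          have : (∫ y, |a + y * b| ^ 3 ∂ν) / W ^ (3 / 2 : ℝ) ≤ 1 := by
            rw [div_le_one (by positivity)]
            exact hY3.trans hcube
          nlinarith
      _ = _ := mul_one _
  refine hmain.trans ?_
  have := final_interp δ V W D (a ^ 2) (s * b ^ 2) hδ hδ1 hV hW rfl rfl hx0 (by linarith)
  rw [← mul_assoc] at this
  exact this

end Pool.Agent.H58.QC
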