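import Mathlib
import Pool.Agent.H95.QC.Targets
import Pool.Agent.H58.QC.H1

open MeasureTheory ProbabilityTheory Filter Topology
open scoped ENNReal NNReal BigOperators

namespace Pool.Agent.H58.QC

open Pool.Agent.H95 Pool.Agent.H95.QC

/-! ### linearity -/

section Lin

variable {G : Type*} [Fintype G] [DecidableEq G] [AddCommGroup G]

lemma step_lin (st : Fin 4 → G) (a : G → ℝ) (c : ℝ) (f g : G → ℝ) :
    step st a (c • f + g) = c • step st a f + step st a g := by
  funext x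
  simp only [step, Pi.add_apply, Pi.smul_apply, smul_eq_mul, Finset.sum_add_distrib,
    ← Finset.mul_sum]
  ring

lemma evo_lin (st : Fin 4 → G) (a : G → ℝ) (n : ℕ) (w : ℕ → G → ℝ≥0) (c : ℝ) (f g : G → ℝ) :
    evo st a n w (c • f + g) = c • evo st a n w f + evo st a n w g := by
  induction n generalizing w f g with
  | zero => rfl
  | succ n ih =>
    simp only [evo]
    rw [step_lin, ← ih]
    congr 1
    funext x
    simp only [Pi.add_apply, Pi.smul_apply, smul_eq_mul]
    ring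

/-- the total mass as a linear map of the starting vector -/
noncomputable def ZL (st : Fin 4 → G) (a : G → ℝ) (n : ℕ) (w : ℕ → G → ℝ≥0) :
    (G → ℝ) →ₗ[ℝ] ℝ where
  toFun := Z st a n w
  map_add' f g := by
    have := evo_lin st a n w 1 f g
    rw [one_smul, one_smul] at this
    simp only [Z, this, Pi.add_apply, Finset.sum_add_distrib]
  map_smul' c f := by
    have := evo_lin st a n w c f 0
    have h0 : evo st a n w 0 = 0 := by
      have := evo_lin st a n w 1 0 0
      simpa using this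
    rw [h0, add_zero, add_zero] at this
    simp only [Z, this, Pi.smul_apply, smul_eq_mul, ← Finset.mul_sum, RingHom.id_apply]

lemma Z_eq_sum (st : Fin 4 → G) (a : G → ℝ) (n : ℕ) (w : ℕ → G → ℝ≥0) (f : G → ℝ) :
    Z st a n w f = ∑ x, f x * Z st a n w (dl x) := by
  have h := LinearMap.pi_apply_eq_sum_univ (ZL st a n w) f
  have e : ∀ x : G, (fun j => if x = j then (1 : ℝ) else 0) = dl x := by
    intro x
    funext j
    simp only [dl, Pi.single_apply, eq_comm]
  simp only [e, smul_eq_mul] at h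
  exact h

lemma Z_succ (st : Fin 4 → G) (a : G → ℝ) (n : ℕ) (w : ℕ → G → ℝ≥0) (f : G → ℝ) :
    Z st a (n + 1) w f = ∑ x, ((w 0 x : ℝ) * step st a f x) * Z st a n (shift 1 w) (dl x) := by
  have : Z st a (n + 1) w f = Z st a n (shift 1 w) (fun x => (w 0 x : ℝ) * step st a f x) := rfl
  rw [this, Z_eq_sum]

lemma Z_succ' (st : Fin 4 → G) (a : G → ℝ) (n : ℕ) (w : ℕ → G → ℝ≥0) (f : G → ℝ) :
    Z st a (n + 1) w f = Z st a n (shift 1 w) (step st a f) +
      ∑ x, ((w 0 x : ℝ) - 1) * (step st a f x * Z st a n (shift 1 w) (dl x)) := by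
  rw [Z_succ, Z_eq_sum st a n _ (step st a f), ← Finset.sum_add_distrib]
  refine Finset.sum_congr rfl (fun x _ => ?_)
  ring

lemma measurable_Z (st : Fin 4 → G) (a : G → ℝ) (n : ℕ) (f : G → ℝ) :
    Measurable (fun w : ℕ → G → ℝ≥0 => Z st a n w f) := by
  induction n generalizing f with
  | zero =>
    have : (fun w : ℕ → G → ℝ≥0 => Z st a 0 w f) = fun _ => ∑ x, f x := rfl
    rw [this]; exact measurable_const
  | succ n ih =>
    simp_rw [Z_succ]
    refine Finset.measurable_sum _ (fun x _ => ?_)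
    have h1 : Measurable (fun w : ℕ → G → ℝ≥0 => Z st a n (shift 1 w) (dl x)) :=
      (ih (dl x)).comp (measurable_shift 1)
    have h2 : Measurable (fun w : ℕ → G → ℝ≥0 => ((w 0 x : ℝ≥0) : ℝ)) := by fun_prop
    exact (h2.mul_const _).mul h1

lemma sum_step (st : Fin 4 → G) (F : G → ℝ) : ∑ x, step st 1 F x = ∑ x, F x := by
  simp only [step, Pi.one_apply, one_mul]
  rw [← Finset.sum_div, Finset.sum_comm]
  have : ∀ i : Fin 4, ∑ x, F (x - st i) = ∑ x, F x := fun i =>
    Equiv.sum_comp (Equiv.subRight (st i)) F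
  simp only [this, Finset.sum_const, Finset.card_univ, Fintype.card_fin, nsmul_eq_mul]
  push_cast
  ring

lemma qv_ge (st : Fin 4 → G) (s : ℝ) (hs : 0 ≤ s) (T : ℕ) (F : G → ℝ) :
    (∑ x, F x) ^ 2 ≤ qv st 1 s (fun F => (∑ x, F x) ^ 2) T F := by
  induction T generalizing F with
  | zero => exact le_rfl
  | succ T ih =>
    simp only [qv]
    have h1 := ih (step st 1 F)
    rw [sum_step] at h1
    have h2 : 0 ≤ ∑ x, (step st 1 F x) ^ 2 * qv st 1 s (fun F => (∑ x, F x) ^ 2) T (dl x) :=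
      Finset.sum_nonneg (fun x _ => mul_nonneg (sq_nonneg _) ((sq_nonneg _).trans (ih _)))
    have := mul_nonneg hs h2
    linarith

end Lin

/-! ### `L^r` size of nonnegative functions -/

/-- `(∫⁻ U^r)^(1/r)` -/
noncomputable def Nr {Ω : Type*} [MeasurableSpace Ω] (μ : Measure Ω) (r : ℝ) (U : Ω → ℝ≥0∞) :
    ℝ≥0∞ := (∫⁻ x, U x ^ r ∂μ) ^ (1 / r)

section NrSec

variable {Ω : Type*} [MeasurableSpace Ω] {μ : Measure Ω} {r : ℝ}

lemma Nr_add_le (hr : 1 ≤ r) {U V : Ω → ℝ≥0∞} (hU : Measurable U) (hV : Measurable V) :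
    Nr μ r (fun x => U x + V x) ≤ Nr μ r U + Nr μ r V :=
  ENNReal.lintegral_Lp_add_le hU.aemeasurable hV.aemeasurable hr

lemma Nr_sum_le (hr : 1 ≤ r) {ι : Type*} (s : Finset ι) {U : ι → Ω → ℝ≥0∞}
    (hU : ∀ i, Measurable (U i)) :
    Nr μ r (fun x => ∑ i ∈ s, U i x) ≤ ∑ i ∈ s, Nr μ r (U i) := by
  classical
  induction s using Finset.induction_on with
  | empty =>
    simp only [Finset.sum_empty, Nr]
    rw [ENNReal.zero_rpow_of_pos (by linarith)]
    simp only [lintegral_zero]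
    rw [ENNReal.zero_rpow_of_pos (by positivity)]
  | insert i s hi ih =>
    simp only [Finset.sum_insert hi]
    exact (Nr_add_le hr (hU i) (Finset.measurable_sum s (fun j _ => hU j))).trans
      (by gcongr)

lemma Nr_const [IsProbabilityMeasure μ] (hr : 1 ≤ r) (c : ℝ≥0∞) : Nr μ r (fun _ => c) = c := by
  simp only [Nr, lintegral_const, measure_univ, mul_one]
  rw [← ENNReal.rpow_mul, mul_one_div_cancel (by positivity), ENNReal.rpow_one]

lemma Nr_const_mul (hr : 1 ≤ r) (c : ℝ≥0∞) {U : Ω → ℝ≥0∞} (hU : Measurable U) :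
    Nr μ r (fun x => c * U x) = c * Nr μ r U := by
  simp only [Nr]
  simp_rw [ENNReal.mul_rpow_of_nonneg _ _ (by linarith : 0 ≤ r)]
  rw [lintegral_const_mul _ (hU.pow_const r), ENNReal.mul_rpow_of_nonneg _ _ (by positivity),
    ← ENNReal.rpow_mul, mul_one_div_cancel (by positivity), ENNReal.rpow_one]

lemma Nr_le_iff (hr : 1 ≤ r) {U : Ω → ℝ≥0∞} {c : ℝ≥0∞} :
    Nr μ r U ≤ c ↔ ∫⁻ x, U x ^ r ∂μ ≤ c ^ r := by
  unfold Nr
  rw [one_div, ENNReal.rpow_inv_le_iff (by linarith)]

end NrSec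

/-! ### one weight -/

section One

variable {ν : Measure ℝ≥0} {s M3 δ D : ℝ}

/-- constants of the hypotheses -/
structure Hyp (ν : Measure ℝ≥0) (s M3 δ D : ℝ) : Prop where
  wt : Wt ν s
  s0 : 0 < s
  d0 : 0 < δ
  d1 : δ ≤ 1
  D4 : 4 ≤ D
  hM : 4 * M3 ^ 2 ≤ (D * s) ^ 3
  i3 : Integrable (fun y : ℝ≥0 => |(y : ℝ) - 1| ^ 3) ν
  m3 : ∫ y, |(y : ℝ) - 1| ^ 3 ∂ν ≤ M3

lemma one_site (h : Hyp ν s M3 δ D) (a b : ℝ) :
    Nr ν (1 + δ / 2) (fun y : ℝ≥0 => ENNReal.ofReal ((a + ((y : ℝ) - 1) * b) ^ 2)) ≤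
      ENNReal.ofReal (a ^ 2 + (1 + 3 * δ / 2 * D) * s * b ^ 2) := by
  haveI := h.wt.prob
  have hr : (1 : ℝ) ≤ 1 + δ / 2 := by have := h.d0; linarith
  rw [Nr_le_iff hr]
  set φ : ℝ≥0 → ℝ := fun y => (y : ℝ) - 1 with hφ
  have hφm : Measurable φ := by fun_prop
  have hprob : IsProbabilityMeasure (ν.map φ) := Measure.isProbabilityMeasure_map hφm.aemeasurable
  have e1 : Integrable (fun y : ℝ => |y| ^ 3) (ν.map φ) := by
    rw [integrable_map_measure (by fun_prop) hφm.aemeasurable]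
    exact h.i3
  have e2 : ∫ y, y ∂(ν.map φ) = 0 := by
    rw [integral_map hφm.aemeasurable (by fun_prop)]
    simp only [hφ]
    rw [integral_sub h.wt.int1 (integrable_const _), h.wt.mean]
    simp
  have e3 : ∫ y, y ^ 2 ∂(ν.map φ) = s := by
    rw [integral_map hφm.aemeasurable (by fun_prop)]
    exact h.wt.var
  have e4 : ∫ y, |y| ^ 3 ∂(ν.map φ) ≤ M3 := by
    rw [integral_map hφm.aemeasurable (by fun_prop)]
    exact h.m3
  have key := h1 (ν.map φ) s M3 δ D h.s0 h.d0 h.d1 h.D4 h.hM e1 e2 e3 e4 a b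
  have hmeas : Measurable (fun y : ℝ => |a + y * b| ^ (2 + δ)) := by fun_prop
  have hint : Integrable (fun y : ℝ => |a + y * b| ^ (2 + δ)) (ν.map φ) := by
    have hg : Integrable (fun y : ℝ => 1 + 4 * (|a| ^ 3 + |b| ^ 3 * |y| ^ 3)) (ν.map φ) :=
      (integrable_const _).add (((integrable_const _).add (e1.const_mul _)).const_mul _)
    refine hg.mono' hmeas.aestronglyMeasurable ?_
    filter_upwards with y
    rw [Real.norm_eq_abs, abs_of_nonneg (by positivity)]
    have h3 : |a + y * b| ^ 3 ≤ 4 * (|a| ^ 3 + |b| ^ 3 * |y| ^ 3) := by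
      have h4 : |a + y * b| ≤ |a| + |y * b| := abs_add_le _ _
      have h5 := add_pow_le (abs_nonneg a) (abs_nonneg (y * b)) 3
      have h6 := pow_le_pow_left₀ (abs_nonneg _) h4 3
      rw [abs_mul, mul_pow] at h5
      norm_num at h5
      rw [abs_mul] at h6
      nlinarith
    have h7 : |a + y * b| ^ (2 + δ) ≤ 1 + |a + y * b| ^ 3 := by
      have h0 := abs_nonneg (a + y * b)
      rcases le_total |a + y * b| 1 with hle | hle
      · have : |a + y * b| ^ (2 + δ) ≤ 1 := Real.rpow_le_one h0 hle (by have := h.d0; linarith)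
        have : 0 ≤ |a + y * b| ^ 3 := by positivity
        linarith
      · have : |a + y * b| ^ (2 + δ) ≤ |a + y * b| ^ (3 : ℝ) :=
          Real.rpow_le_rpow_of_exponent_le hle (by have := h.d1; linarith)
        rw [show (3 : ℝ) = ((3 : ℕ) : ℝ) by norm_num, Real.rpow_natCast] at this
        linarith
    linarith
  have hdpos : 0 ≤ a ^ 2 + (1 + 3 * δ / 2 * D) * s * b ^ 2 := by
    have := h.s0; have := h.d0; have := h.D4; positivity
  calc ∫⁻ y : ℝ≥0, ENNReal.ofReal ((a + ((y : ℝ) - 1) * b) ^ 2) ^ (1 + δ / 2) ∂ν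
      = ∫⁻ y : ℝ≥0, ENNReal.ofReal (|a + φ y * b| ^ (2 + δ)) ∂ν := by
        refine lintegral_congr (fun y => ?_)
        rw [ENNReal.ofReal_rpow_of_nonneg (sq_nonneg _) (by linarith)]
        congr 1
        rw [← sq_abs, ← Real.rpow_natCast, ← Real.rpow_mul (abs_nonneg _)]
        congr 1
        push_cast; ring
    _ = ∫⁻ y : ℝ, ENNReal.ofReal (|a + y * b| ^ (2 + δ)) ∂(ν.map φ) := by
        rw [lintegral_map (by fun_prop) hφm]
    _ = ENNReal.ofReal (∫ y : ℝ, |a + y * b| ^ (2 + δ) ∂(ν.map φ)) := by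
        rw [ofReal_integral_eq_lintegral_ofReal hint]
        filter_upwards with y; positivity
    _ ≤ ENNReal.ofReal ((a ^ 2 + (1 + 3 * δ / 2 * D) * s * b ^ 2) ^ ((2 + δ) / 2)) :=
        ENNReal.ofReal_le_ofReal key
    _ = ENNReal.ofReal (a ^ 2 + (1 + 3 * δ / 2 * D) * s * b ^ 2) ^ (1 + δ / 2) := by
        rw [ENNReal.ofReal_rpow_of_nonneg hdpos (by linarith)]
        congr 2
        ring

lemma one_site_add (h : Hyp ν s M3 δ D) (a b K : ℝ) (hK : 0 ≤ K) :
    ∫⁻ y : ℝ≥0, ENNReal.ofReal ((a + ((y : ℝ) - 1) * b) ^ 2 + K) ^ (1 + δ / 2) ∂ν ≤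
      ENNReal.ofReal (a ^ 2 + (1 + 3 * δ / 2 * D) * s * b ^ 2 + K) ^ (1 + δ / 2) := by
  haveI := h.wt.prob
  have hr : (1 : ℝ) ≤ 1 + δ / 2 := by have := h.d0; linarith
  have hdpos : 0 ≤ a ^ 2 + (1 + 3 * δ / 2 * D) * s * b ^ 2 := by
    have := h.s0; have := h.d0; have := h.D4; positivity
  rw [← Nr_le_iff hr]
  have e : (fun y : ℝ≥0 => ENNReal.ofReal ((a + ((y : ℝ) - 1) * b) ^ 2 + K)) =
      fun y : ℝ≥0 => ENNReal.ofReal ((a + ((y : ℝ) - 1) * b) ^ 2) + ENNReal.ofReal K := by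
    funext y
    rw [ENNReal.ofReal_add (sq_nonneg _) hK]
  rw [e, ENNReal.ofReal_add hdpos hK]
  refine (Nr_add_le hr (by fun_prop) measurable_const).trans ?_
  rw [Nr_const hr]
  gcongr
  exact one_site h a b

lemma sites {G : Type*} [Fintype G] [DecidableEq G] (h : Hyp ν s M3 δ D) (A : ℝ) (B : G → ℝ) :
    ∫⁻ y, ENNReal.ofReal ((A + ∑ x, ((y x : ℝ) - 1) * B x) ^ 2) ^ (1 + δ / 2)
      ∂(Measure.pi (fun _ : G => ν)) ≤
      ENNReal.ofReal (A ^ 2 + (1 + 3 * δ / 2 * D) * s * ∑ x, B x ^ 2) ^ (1 + δ / 2) := by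
  haveI := h.wt.prob
  have hs' : 0 ≤ (1 + 3 * δ / 2 * D) * s := by
    have := h.s0; have := h.d0; have := h.D4; positivity
  set f : (G → ℝ≥0) → ℝ≥0∞ := fun y =>
    ENNReal.ofReal ((A + ∑ x, ((y x : ℝ) - 1) * B x) ^ 2) ^ (1 + δ / 2) with hf
  have hfm : Measurable f := by
    rw [hf]; fun_prop
  have key : ∀ (S : Finset G) (w : G → ℝ≥0), (∫⋯∫⁻_S, f ∂(fun _ : G => ν)) w ≤
      ENNReal.ofReal ((A + ∑ x ∈ Sᶜ, ((w x : ℝ) - 1) * B x) ^ 2 +
        (1 + 3 * δ / 2 * D) * s * ∑ x ∈ S, B x ^ 2) ^ (1 + δ / 2) := by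
    intro S
    induction S using Finset.induction_on with
    | empty =>
      intro w
      simp [hf]
    | insert i S hi ih =>
      intro w
      rw [lmarginal_insert f hfm hi w]
      set A' : ℝ := A + ∑ x ∈ (insert i S)ᶜ, ((w x : ℝ) - 1) * B x with hA'
      have e : ∀ y : ℝ≥0, A + ∑ x ∈ Sᶜ, (((Function.update w i y) x : ℝ) - 1) * B x =
          A' + ((y : ℝ) - 1) * B i := by
        intro y
        have hS : Sᶜ = insert i (insert i S)ᶜ := by
          ext x
          simp only [Finset.mem_compl, Finset.mem_insert, not_or]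
          constructor
          · intro hx
            by_cases hxi : x = i
            · exact Or.inl hxi
            · exact Or.inr ⟨hxi, hx⟩
          · rintro (rfl | ⟨_, hx⟩)
            · exact hi
            · exact hx
        rw [hS, Finset.sum_insert (by simp), Function.update_self, hA']
        have : ∑ x ∈ (insert i S)ᶜ, (((Function.update w i y) x : ℝ) - 1) * B x =
            ∑ x ∈ (insert i S)ᶜ, ((w x : ℝ) - 1) * B x := by
          refine Finset.sum_congr rfl (fun x hx => ?_)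
          have hxi : x ≠ i := by
            rintro rfl
            simp at hx
          rw [Function.update_of_ne hxi]
        rw [this]
        ring
      calc ∫⁻ y : ℝ≥0, (∫⋯∫⁻_S, f ∂(fun _ : G => ν)) (Function.update w i y) ∂ν
          ≤ ∫⁻ y : ℝ≥0, ENNReal.ofReal ((A' + ((y : ℝ) - 1) * B i) ^ 2 +
              (1 + 3 * δ / 2 * D) * s * ∑ x ∈ S, B x ^ 2) ^ (1 + δ / 2) ∂ν := by
            refine lintegral_mono (fun y => ?_)
            have := ih (Function.update w i y)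
            rwa [e y] at this
        _ ≤ ENNReal.ofReal (A' ^ 2 + (1 + 3 * δ / 2 * D) * s * B i ^ 2 +
              (1 + 3 * δ / 2 * D) * s * ∑ x ∈ S, B x ^ 2) ^ (1 + δ / 2) :=
            one_site_add h A' (B i) _ (mul_nonneg hs' (Finset.sum_nonneg (fun x _ => sq_nonneg _)))
        _ = _ := by
            rw [Finset.sum_insert hi]
            congr 2
            ring
  have h2 := key Finset.univ (fun _ => 0)
  rw [lmarginal_univ] at h2
  simpa using h2

end One

/-! ### peeling the first layer -/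

lemma lintegral_env_succ {G : Type*} [Fintype G] {ν : Measure ℝ≥0} [IsProbabilityMeasure ν]
    (g : (G → ℝ≥0) → (ℕ → G → ℝ≥0) → ℝ≥0∞)
    (hg : Measurable (fun p : (G → ℝ≥0) × (ℕ → G → ℝ≥0) => g p.1 p.2)) :
    ∫⁻ w, g (w 0) (shift 1 w) ∂(env G ν) =
      ∫⁻ w, ∫⁻ y, g y w ∂(Measure.pi (fun _ : G => ν)) ∂(env G ν) := by
  unfold env
  have hmp := measurePreserving_splice (E := G → ℝ≥0) (Measure.pi (fun _ : G => ν)) 1
  have hm1 : Measurable (fun w : ℕ → G → ℝ≥0 => g (w 0) (shift 1 w)) :=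
    hg.comp ((measurable_pi_apply 0).prodMk (measurable_shift 1))
  rw [← hmp.lintegral_comp hm1]
  have e : ∀ q : (ℕ → G → ℝ≥0) × (ℕ → G → ℝ≥0),
      g (splice 1 q 0) (shift 1 (splice 1 q)) = g (q.1 0) q.2 := by
    intro q
    rw [shift_splice]
    rfl
  simp only [e]
  have hm2 : Measurable (fun q : (ℕ → G → ℝ≥0) × (ℕ → G → ℝ≥0) => g (q.1 0) q.2) := by
    have hq : Measurable (fun q : (ℕ → G → ℝ≥0) × (ℕ → G → ℝ≥0) => (q.1 0, q.2)) :=
      ((measurable_pi_apply 0).comp measurable_fst).prodMk measurable_snd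
    exact hg.comp hq
  rw [lintegral_prod_symm' _ hm2]
  refine lintegral_congr (fun w => ?_)
  have hev := measurePreserving_eval_infinitePi (fun _ : ℕ => Measure.pi (fun _ : G => ν)) 0
  have hm3 : Measurable (fun y : G → ℝ≥0 => g y w) := hg.comp (measurable_id.prodMk measurable_const)
  exact hev.lintegral_comp hm3

section Main

variable {ν : Measure ℝ≥0} {s M3 δ D : ℝ}
variable {G : Type*} [Fintype G] [DecidableEq G] [AddCommGroup G]

lemma env_prob [IsProbabilityMeasure ν] : IsProbabilityMeasure (env G ν) := by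
  unfold env; infer_instance

theorem h3_main (h : Hyp ν s M3 δ D) (st : Fin 4 → G) (T : ℕ) (F : G → ℝ) (c : ℝ) :
    Nr (env G ν) (1 + δ / 2) (fun w => ENNReal.ofReal ((c + Z st 1 T w F) ^ 2)) ≤
      ENNReal.ofReal ((c + ∑ x, F x) ^ 2 +
        (qv st 1 ((1 + 3 * δ / 2 * D) * s) (fun F => (∑ x, F x) ^ 2) T F - (∑ x, F x) ^ 2)) := by
  haveI := h.wt.prob
  haveI : IsProbabilityMeasure (env G ν) := env_prob
  have hr : (1 : ℝ) ≤ 1 + δ / 2 := by have := h.d0; linarith
  have hs' : 0 ≤ (1 + 3 * δ / 2 * D) * s := by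
    have := h.s0; have := h.d0; have := h.D4; positivity
  induction T generalizing F c with
  | zero =>
    have e : (fun w : ℕ → G → ℝ≥0 => ENNReal.ofReal ((c + Z st 1 0 w F) ^ 2)) =
        fun _ => ENNReal.ofReal ((c + ∑ x, F x) ^ 2) := rfl
    rw [e, Nr_const hr]
    simp [qv]
  | succ T ih =>
    set s' := (1 + 3 * δ / 2 * D) * s with hs'def
    set P := step st 1 F with hP
    -- split
    have hmZ : ∀ f : G → ℝ, Measurable (fun w : ℕ → G → ℝ≥0 => Z st 1 T w f) :=
      fun f => measurable_Z st 1 T f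
    have hstep : ∀ w : ℕ → G → ℝ≥0, ENNReal.ofReal ((c + Z st 1 (T + 1) w F) ^ 2) ^ (1 + δ / 2) =
        (fun (y : G → ℝ≥0) (w' : ℕ → G → ℝ≥0) => ENNReal.ofReal (((c + Z st 1 T w' P) +
          ∑ x, ((y x : ℝ) - 1) * (P x * Z st 1 T w' (dl x))) ^ 2) ^ (1 + δ / 2))
          (w 0) (shift 1 w) := by
      intro w
      simp only
      rw [Z_succ', ← hP, ← add_assoc]
    rw [Nr_le_iff hr]
    have hgm : Measurable (fun p : (G → ℝ≥0) × (ℕ → G → ℝ≥0) =>
        (fun (y : G → ℝ≥0) (w' : ℕ → G → ℝ≥0) => ENNReal.ofReal (((c + Z st 1 T w' P) +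
          ∑ x, ((y x : ℝ) - 1) * (P x * Z st 1 T w' (dl x))) ^ 2) ^ (1 + δ / 2)) p.1 p.2) := by
      simp only
      have h1 : ∀ f : G → ℝ, Measurable (fun p : (G → ℝ≥0) × (ℕ → G → ℝ≥0) =>
          Z st 1 T p.2 f) := fun f => (hmZ f).comp measurable_snd
      have h2 : Measurable (fun p : (G → ℝ≥0) × (ℕ → G → ℝ≥0) =>
          ∑ x, ((p.1 x : ℝ) - 1) * (P x * Z st 1 T p.2 (dl x))) := by
        refine Finset.measurable_sum _ (fun x _ => ?_)
        have h3 : Measurable (fun p : (G → ℝ≥0) × (ℕ → G → ℝ≥0) => ((p.1 x : ℝ) - 1)) := by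
          fun_prop
        exact h3.mul ((h1 (dl x)).const_mul _)
      exact ((((h1 P).const_add c).add h2).pow_const 2).ennreal_ofReal.pow_const _
    calc ∫⁻ w, ENNReal.ofReal ((c + Z st 1 (T + 1) w F) ^ 2) ^ (1 + δ / 2) ∂(env G ν)
        = ∫⁻ w, ∫⁻ y, ENNReal.ofReal (((c + Z st 1 T w P) +
          ∑ x, ((y x : ℝ) - 1) * (P x * Z st 1 T w (dl x))) ^ 2) ^ (1 + δ / 2)
            ∂(Measure.pi (fun _ : G => ν)) ∂(env G ν) := by
          rw [lintegral_congr hstep]
          exact lintegral_env_succ (fun (y : G → ℝ≥0) (w' : ℕ → G → ℝ≥0) =>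
            ENNReal.ofReal (((c + Z st 1 T w' P) +
            ∑ x, ((y x : ℝ) - 1) * (P x * Z st 1 T w' (dl x))) ^ 2) ^ (1 + δ / 2)) hgm
      _ ≤ ∫⁻ w, ENNReal.ofReal ((c + Z st 1 T w P) ^ 2 +
            s' * ∑ x, (P x * Z st 1 T w (dl x)) ^ 2) ^ (1 + δ / 2) ∂(env G ν) :=
          lintegral_mono (fun w => sites h _ _)
      _ ≤ _ := by
          rw [← Nr_le_iff hr]
          have e : (fun w : ℕ → G → ℝ≥0 => ENNReal.ofReal ((c + Z st 1 T w P) ^ 2 +
              s' * ∑ x, (P x * Z st 1 T w (dl x)) ^ 2)) = fun w =>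
              ENNReal.ofReal ((c + Z st 1 T w P) ^ 2) +
                ∑ x, ENNReal.ofReal (s' * P x ^ 2) * ENNReal.ofReal ((0 + Z st 1 T w (dl x)) ^ 2) := by
            funext w
            rw [ENNReal.ofReal_add (sq_nonneg _)
              (mul_nonneg hs' (Finset.sum_nonneg (fun x _ => sq_nonneg _))), Finset.mul_sum,
              ENNReal.ofReal_sum_of_nonneg (fun x _ => mul_nonneg hs' (sq_nonneg _))]
            congr 1
            refine Finset.sum_congr rfl (fun x _ => ?_)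
            rw [← ENNReal.ofReal_mul (mul_nonneg hs' (sq_nonneg _)), zero_add]
            congr 1
            ring
          rw [e]
          have hm1 : Measurable (fun w : ℕ → G → ℝ≥0 => ENNReal.ofReal ((c + Z st 1 T w P) ^ 2)) :=
            (((hmZ P).const_add c).pow_const 2).ennreal_ofReal
          have hm2 : ∀ x, Measurable (fun w : ℕ → G → ℝ≥0 =>
              ENNReal.ofReal ((0 + Z st 1 T w (dl x)) ^ 2)) := fun x =>
            (((hmZ (dl x)).const_add 0).pow_const 2).ennreal_ofReal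
          have hm3 : ∀ x, Measurable (fun w : ℕ → G → ℝ≥0 =>
              ENNReal.ofReal (s' * P x ^ 2) * ENNReal.ofReal ((0 + Z st 1 T w (dl x)) ^ 2)) :=
            fun x => (hm2 x).const_mul _
          refine (Nr_add_le hr hm1 (Finset.measurable_sum _ (fun x _ => hm3 x))).trans ?_
          refine (add_le_add (ih P c) (Nr_sum_le hr Finset.univ hm3)).trans ?_
          have hone : ∀ x : G, Nr (env G ν) (1 + δ / 2) (fun w =>
              ENNReal.ofReal (s' * P x ^ 2) * ENNReal.ofReal ((0 + Z st 1 T w (dl x)) ^ 2)) ≤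
              ENNReal.ofReal (s' * (P x ^ 2 *
                qv st 1 s' (fun F => (∑ x, F x) ^ 2) T (dl x))) := by
            intro x
            rw [Nr_const_mul hr _ (hm2 x)]
            have h5 := ih (dl x) 0
            rw [zero_add] at h5
            have h6 : (∑ x_1 : G, dl x x_1) ^ 2 + (qv st 1 s' (fun F => (∑ x, F x) ^ 2) T (dl x) -
                (∑ x_1 : G, dl x x_1) ^ 2) = qv st 1 s' (fun F => (∑ x, F x) ^ 2) T (dl x) := by
              ring
            rw [h6] at h5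
            calc _ ≤ ENNReal.ofReal (s' * P x ^ 2) *
                  ENNReal.ofReal (qv st 1 s' (fun F => (∑ x, F x) ^ 2) T (dl x)) := by
                  gcongr
              _ = _ := by
                  rw [← ENNReal.ofReal_mul (mul_nonneg hs' (sq_nonneg _)), mul_assoc]
          refine (add_le_add le_rfl (Finset.sum_le_sum (fun x _ => hone x))).trans ?_
          have hqn : ∀ x : G, 0 ≤ qv st 1 s' (fun F => (∑ x, F x) ^ 2) T (dl x) := fun x =>
            (sq_nonneg _).trans (qv_ge st s' hs' T (dl x))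
          rw [← ENNReal.ofReal_sum_of_nonneg
            (fun x _ => mul_nonneg hs' (mul_nonneg (sq_nonneg _) (hqn x))),
            ← ENNReal.ofReal_add]
          · apply ENNReal.ofReal_le_ofReal
            apply le_of_eq
            simp only [qv]
            rw [← hP, hP, sum_step, ← Finset.mul_sum]
            ring
          · have := qv_ge st s' hs' T P
            have := sq_nonneg (c + ∑ x, P x)
            linarith
          · exact Finset.sum_nonneg
              (fun x _ => mul_nonneg hs' (mul_nonneg (sq_nonneg _) (hqn x)))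

end Main

theorem h3 : TargetH3 := by
  intro G _ _ _ st ν s M3 δ D hwt hs hδ hδ1 hD hM hint hM3 T F
  have h : Hyp ν s M3 δ D := ⟨hwt, hs, hδ, hδ1, hD, hM, hint, hM3⟩
  haveI := hwt.prob
  have hr : (1 : ℝ) ≤ 1 + δ / 2 := by linarith
  have hm := h3_main h st T F (-∑ x, F x)
  have hp : ENNReal.ofReal (2 + δ) ≠ 0 := by
    rw [Ne, ENNReal.ofReal_eq_zero]; push Not; linarith
  rw [eLpNorm_eq_lintegral_rpow_enorm_toReal hp ENNReal.ofReal_ne_top,
    ENNReal.toReal_ofReal (by linarith)]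
  rw [neg_add_cancel, zero_pow two_ne_zero, zero_add] at hm
  refine le_trans (le_of_eq ?_) hm
  unfold Nr
  rw [← ENNReal.rpow_natCast, ← ENNReal.rpow_mul]
  have e : ∀ w : ℕ → G → ℝ≥0, ‖Z st 1 T w F - ∑ x, F x‖ₑ ^ (2 + δ) =
      ENNReal.ofReal ((-∑ x, F x + Z st 1 T w F) ^ 2) ^ (1 + δ / 2) := by
    intro w
    rw [show (-∑ x, F x + Z st 1 T w F) = Z st 1 T w F - ∑ x, F x by ring, ← sq_abs,
      ENNReal.ofReal_pow (abs_nonneg _), ← Real.enorm_eq_ofReal_abs, ← ENNReal.rpow_natCast,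
      ← ENNReal.rpow_mul]
    congr 1
    push_cast; ring
  rw [lintegral_congr e]
  congr 1
  push_cast
  field_simp

end Pool.Agent.H58.QC
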