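import Mathlib
import Pool.Agent.H95.QC.Targets

namespace Pool.Agent.H58.QC

open Pool.Agent.H95.QC

lemma uZ_nonneg (n : ℕ) : 0 ≤ uZ n := sq_nonneg _

lemma uZ_zero : uZ 0 = 1 := by simp [uZ]

lemma uZ_succ (n : ℕ) : uZ (n + 1) * (4 * ((n : ℝ) + 1) ^ 2) = uZ n * (2 * (n : ℝ) + 1) ^ 2 := by
  have h := Nat.succ_mul_centralBinom_succ n
  have h' : ((n : ℝ) + 1) * ((n + 1).centralBinom : ℝ) = 2 * (2 * (n : ℝ) + 1) * (n.centralBinom : ℝ) := by
    exact_mod_cast h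
  unfold uZ
  have h4 : (4 : ℝ) ^ n ≠ 0 := by positivity
  rw [div_pow, div_pow, pow_succ (4 : ℝ) n]
  field_simp
  have : (((n + 1).centralBinom : ℝ)) ^ 2 * ((n : ℝ) + 1) ^ 2 =
      4 * (2 * (n : ℝ) + 1) ^ 2 * (n.centralBinom : ℝ) ^ 2 := by
    have := congrArg (fun t => t ^ 2) h'
    nlinarith [this]
  nlinarith [this]

lemma uZ_upper (n : ℕ) : uZ n * (3 * (n : ℝ) + 1) ≤ 1 := by
  induction n with
  | zero => simp [uZ_zero]
  | succ n ih =>
    have h := uZ_succ n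
    have h0 := uZ_nonneg n
    have h1 := uZ_nonneg (n + 1)
    have hn : (0 : ℝ) ≤ n := Nat.cast_nonneg n
    push_cast
    have h2 : uZ (n + 1) * (3 * ((n : ℝ) + 1) + 1) * (4 * ((n : ℝ) + 1) ^ 2) ≤ 4 * ((n : ℝ) + 1) ^ 2 := by
      calc uZ (n + 1) * (3 * ((n : ℝ) + 1) + 1) * (4 * ((n : ℝ) + 1) ^ 2)
          = uZ n * (2 * (n : ℝ) + 1) ^ 2 * (3 * ((n : ℝ) + 1) + 1) := by rw [← h]; ring
        _ = uZ n * (12 * (n : ℝ) ^ 3 + 28 * (n : ℝ) ^ 2 + 19 * n + 4) := by ring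
        _ ≤ uZ n * (12 * (n : ℝ) ^ 3 + 28 * (n : ℝ) ^ 2 + 20 * n + 4) := by
            apply mul_le_mul_of_nonneg_left _ h0
            linarith
        _ = uZ n * (3 * (n : ℝ) + 1) * (4 * ((n : ℝ) + 1) ^ 2) := by ring
        _ ≤ 1 * (4 * ((n : ℝ) + 1) ^ 2) := by
            apply mul_le_mul_of_nonneg_right ih (by positivity)
        _ = _ := one_mul _
    have h3 : (0 : ℝ) < 4 * ((n : ℝ) + 1) ^ 2 := by positivity
    by_contra hc
    push Not at hc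
    nlinarith [mul_lt_mul_of_pos_right hc h3]

lemma uZ_lower (n : ℕ) (hn1 : 1 ≤ n) : 1 ≤ uZ n * (4 * (n : ℝ)) := by
  induction n, hn1 using Nat.le_induction with
  | base =>
    have h := uZ_succ 0
    rw [uZ_zero] at h
    norm_num at h ⊢
    linarith
  | succ n hn1 ih =>
    have h := uZ_succ n
    have h0 := uZ_nonneg n
    have hn : (0 : ℝ) ≤ n := Nat.cast_nonneg n
    push_cast
    have h3 : (0 : ℝ) < ((n : ℝ) + 1) := by positivity
    have h2 : ((n : ℝ) + 1) ≤ uZ (n + 1) * (4 * ((n : ℝ) + 1)) * ((n : ℝ) + 1) := by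
      calc ((n : ℝ) + 1) ≤ uZ n * (4 * (n : ℝ)) * ((n : ℝ) + 1) := by
            nlinarith
        _ ≤ uZ n * (2 * (n : ℝ) + 1) ^ 2 := by
            have : (4 * (n : ℝ)) * ((n : ℝ) + 1) ≤ (2 * (n : ℝ) + 1) ^ 2 := by nlinarith
            calc uZ n * (4 * (n : ℝ)) * ((n : ℝ) + 1) = uZ n * ((4 * (n : ℝ)) * ((n : ℝ) + 1)) := by ring
              _ ≤ _ := mul_le_mul_of_nonneg_left this h0
        _ = uZ (n + 1) * (4 * ((n : ℝ) + 1)) * ((n : ℝ) + 1) := by rw [← h]; ring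
    by_contra hc
    push Not at hc
    nlinarith [mul_lt_mul_of_pos_right hc h3]

theorem k0 : TargetK0 := by
  refine ⟨uZ_zero, fun n hn => ?_⟩
  have hn' : (0 : ℝ) < n := by exact_mod_cast hn
  constructor
  · rw [div_le_iff₀ (by positivity)]
    exact uZ_lower n hn
  · rw [le_div_iff₀ (by positivity)]
    have := uZ_upper n
    have h0 := uZ_nonneg n
    nlinarith

end Pool.Agent.H58.QC
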