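import Mathlib
import Pool.Agent.H95.QC.Chain
import Pool.Agent.H58.QC.H3
import Pool.Agent.H58.QC.K0

open MeasureTheory ProbabilityTheory Filter Topology
open scoped ENNReal NNReal BigOperators

namespace Pool.Agent.H58.QC

open Pool.Agent.H95 Pool.Agent.H95.QC

/-- truncated second moment from the `(2+δ)`-norm -/
lemma trunc_of_eLpNorm {Ω : Type*} [MeasurableSpace Ω] (P : Measure Ω) [IsProbabilityMeasure P]
    (X : Ω → ℝ) (hX : Measurable X) (δ V h : ℝ) (hδ : 0 < δ) (hV : 0 ≤ V) (hh : 0 < h)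
    (hL : eLpNorm X (ENNReal.ofReal (2 + δ)) P ^ 2 ≤ ENNReal.ofReal V) :
    ∫ w in {w | h < |X w|}, X w ^ 2 ∂P ≤ h ^ (-δ) * V ^ (1 + δ / 2) := by
  have hp : ENNReal.ofReal (2 + δ) ≠ 0 := by
    rw [Ne, ENNReal.ofReal_eq_zero]; push Not; linarith
  rw [eLpNorm_eq_lintegral_rpow_enorm_toReal hp ENNReal.ofReal_ne_top,
    ENNReal.toReal_ofReal (by linarith)] at hL
  set I := ∫⁻ w, ‖X w‖ₑ ^ (2 + δ) ∂P with hI
  have hI2 : I ≤ ENNReal.ofReal (V ^ (1 + δ / 2)) := by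
    have h1 : (I ^ (1 / (2 + δ))) ^ 2 = I ^ (2 / (2 + δ)) := by
      rw [← ENNReal.rpow_natCast, ← ENNReal.rpow_mul]
      congr 1
      push_cast; ring
    rw [h1] at hL
    have h2 := ENNReal.rpow_le_rpow hL (by linarith : (0 : ℝ) ≤ 1 + δ / 2)
    rw [← ENNReal.rpow_mul, ENNReal.ofReal_rpow_of_nonneg hV (by linarith)] at h2
    have h3 : 2 / (2 + δ) * (1 + δ / 2) = 1 := by
      field_simp
    rwa [h3, ENNReal.rpow_one] at h2
  have hIfin : I ≠ ⊤ := ne_top_of_le_ne_top ENNReal.ofReal_ne_top hI2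
  -- integrability
  have hm : Measurable (fun w => |X w| ^ (2 + δ)) := by fun_prop
  have e1 : ∀ w, ENNReal.ofReal (|X w| ^ (2 + δ)) = ‖X w‖ₑ ^ (2 + δ) := by
    intro w
    rw [Real.enorm_eq_ofReal_abs, ENNReal.ofReal_rpow_of_nonneg (abs_nonneg _) (by linarith)]
  have hint : Integrable (fun w => |X w| ^ (2 + δ)) P := by
    refine ⟨hm.aestronglyMeasurable, ?_⟩
    rw [hasFiniteIntegral_iff_ofReal (by filter_upwards with w; positivity)]
    simp_rw [e1]
    exact lt_of_le_of_ne le_top hIfin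
  have hval : ∫ w, |X w| ^ (2 + δ) ∂P ≤ V ^ (1 + δ / 2) := by
    rw [integral_eq_lintegral_of_nonneg_ae (by filter_upwards with w; positivity)
      hm.aestronglyMeasurable]
    simp_rw [e1]
    exact ENNReal.toReal_le_of_le_ofReal (by positivity) hI2
  have hms : MeasurableSet {w | h < |X w|} := measurableSet_lt measurable_const (by fun_prop)
  calc ∫ w in {w | h < |X w|}, X w ^ 2 ∂P
      ≤ ∫ w in {w | h < |X w|}, h ^ (-δ) * |X w| ^ (2 + δ) ∂P := by
        apply integral_mono_of_nonneg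
        · filter_upwards with w; positivity
        · exact (hint.const_mul _).integrableOn
        · rw [EventuallyLE, ae_restrict_iff' hms]
          filter_upwards with w hw
          have hw' : h < |X w| := hw
          have hpos : 0 < |X w| := hh.trans hw'
          rw [Real.rpow_add hpos, ← sq_abs]
          have h4 : 1 ≤ h ^ (-δ) * |X w| ^ δ := by
            rw [Real.rpow_neg hh.le, ← div_eq_inv_mul, one_le_div (by positivity)]
            exact Real.rpow_le_rpow hh.le hw'.le hδ.le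
          have h5 : |X w| ^ (2 : ℝ) = |X w| ^ 2 := by norm_cast
          rw [h5]
          have h6 : 0 ≤ |X w| ^ 2 := by positivity
          nlinarith
    _ ≤ ∫ w, h ^ (-δ) * |X w| ^ (2 + δ) ∂P :=
        setIntegral_le_integral (hint.const_mul _) (by filter_upwards with w; positivity)
    _ = h ^ (-δ) * ∫ w, |X w| ^ (2 + δ) ∂P := integral_const_mul _ _
    _ ≤ _ := by
        apply mul_le_mul_of_nonneg_left hval (by positivity)

lemma measurable_win (M n ℓ a : ℕ) [NeZero M] : Measurable (win M n ℓ a) := by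
  unfold win
  exact ((measurable_Z (st M) 1 ℓ (q M (n + a * ℓ))).comp (measurable_shift (a * ℓ))).sub_const 1

theorem nd2 (hK1 : TargetK1) (hE1 : TargetE1) : TargetND2 := by
  intro M n ℓ a _ ν s C₃ δ hwt hs hC3 hint h3m hδ hδ1 hn hℓ hM hD0 hsmall h hh
  haveI := hwt.prob
  haveI : IsProbabilityMeasure (env (Tor M) ν) := env_prob
  set D : ℝ := max 4 ((4 * C₃ ^ 2 / s) ^ (1 / 3 : ℝ)) with hD
  have hD4 : 4 ≤ D := le_max_left _ _
  have hb : 0 ≤ 4 * C₃ ^ 2 / s := by positivity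
  have hD3 : 4 * C₃ ^ 2 / s ≤ D ^ 3 := by
    have h1 : (4 * C₃ ^ 2 / s) ^ (1 / 3 : ℝ) ≤ D := le_max_right _ _
    have h2 := pow_le_pow_left₀ (by positivity) h1 3
    rw [← Real.rpow_natCast, ← Real.rpow_mul hb] at h2
    norm_num at h2
    exact h2
  have hM3 : 4 * (C₃ * s) ^ 2 ≤ (D * s) ^ 3 := by
    have h1 : 4 * C₃ ^ 2 ≤ D ^ 3 * s := by
      rw [div_le_iff₀ hs] at hD3; exact hD3
    calc 4 * (C₃ * s) ^ 2 = 4 * C₃ ^ 2 * s ^ 2 := by ring
      _ ≤ D ^ 3 * s * s ^ 2 := mul_le_mul_of_nonneg_right h1 (by positivity)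
      _ = _ := by ring
  set m := n + a * ℓ with hm
  set s' := (1 + 3 * δ / 2 * D) * s with hs'
  have hR0 : 0 ≤ Rn ℓ := Rn_nonneg ℓ
  have hsR : s * Rn ℓ < 1 := by linarith
  have hsR0 : 0 ≤ s * Rn ℓ := by positivity
  have hx : 3 * δ / 2 * D ≤ (1 - s * Rn ℓ) / 2 := by
    have : 3 * δ / 2 * D = 3 / 2 * δ * D := by ring
    rw [this]; exact hsmall
  have hx0 : 0 ≤ 3 * δ / 2 * D := by positivity
  have hs'0 : 0 ≤ s' := by positivity
  have hs'2 : s' ≤ 2 * s := by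
    rw [hs']
    nlinarith
  have hD' : (1 - s * Rn ℓ) / 2 ≤ 1 - s' * Rn ℓ := by
    have : s' * Rn ℓ = s * Rn ℓ + (3 * δ / 2 * D) * (s * Rn ℓ) := by rw [hs']; ring
    rw [this]
    nlinarith
  have hD'0 : 0 < 1 - s' * Rn ℓ := by linarith
  have hH := h3 (Tor M) (st M) ν s (C₃ * s) δ D hwt hs hδ hδ1 hD4 hM3 hint h3m ℓ (q M m)
  have hal : n + (a + 1) * ℓ = m + ℓ := by rw [hm]; ring
  rw [hal] at hM
  have hE := hE1 M ℓ s' (q M m) (by omega)
  rw [hE, sum_q] at hH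
  have hn0 : (0 : ℝ) < n := by exact_mod_cast hn
  have hV : (1 : ℝ) ^ 2 + s' * ∑ j ∈ Finset.Icc 1 ℓ, Phi s' (ℓ - j) *
      QC.sq ((step (st M) 1)^[j] (q M m)) - 1 ^ 2 ≤ 4 * (s / (1 - s * Rn ℓ)) * (ℓ / (3 * n)) := by
    have h1 : ∀ j ∈ Finset.Icc 1 ℓ, Phi s' (ℓ - j) * QC.sq ((step (st M) 1)^[j] (q M m)) ≤
        2 / (1 - s * Rn ℓ) * (1 / (3 * n)) := by
      intro j hj
      rw [Finset.mem_Icc] at hj
      rw [← q_add]
      have h2 : QC.sq (q M (m + j)) = uZ (m + j) := by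
        apply hK1
        omega
      rw [h2]
      have h3 : Phi s' (ℓ - j) ≤ 2 / (1 - s * Rn ℓ) := by
        have h4 : Phi s' (ℓ - j) ≤ Phi s' ℓ := Phi_mono hs'0 (by omega)
        have h5 : Phi s' ℓ ≤ 1 / (1 - s' * Rn ℓ) := Phi_le hs'0 hD'0
        have h6 : 1 / (1 - s' * Rn ℓ) ≤ 2 / (1 - s * Rn ℓ) := by
          rw [div_le_div_iff₀ hD'0 hD0]
          linarith
        linarith
      have h7 : uZ (m + j) ≤ 1 / (3 * n) := by
        have h8 := (k0.2 (m + j) (by omega)).2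
        refine h8.trans ?_
        apply one_div_le_one_div_of_le (by positivity)
        have : (n : ℝ) ≤ ((m + j : ℕ) : ℝ) := by
          exact_mod_cast (by omega : n ≤ m + j)
        linarith
      exact mul_le_mul h3 h7 (Pool.Agent.H95.QC.uZ_nonneg _) (by positivity)
    have h2 := Finset.sum_le_sum h1
    rw [Finset.sum_const, Nat.card_Icc, nsmul_eq_mul] at h2
    have h3 : s' * ∑ j ∈ Finset.Icc 1 ℓ, Phi s' (ℓ - j) * QC.sq ((step (st M) 1)^[j] (q M m)) ≤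
        (2 * s) * (((ℓ + 1 - 1 : ℕ) : ℝ) * (2 / (1 - s * Rn ℓ) * (1 / (3 * n)))) := by
      apply mul_le_mul hs'2 h2 _ (by positivity)
      exact Finset.sum_nonneg (fun j _ => mul_nonneg (Phi_nonneg hs'0 _) (sq_nonneg' _))
    have h4 : (2 * s) * (((ℓ + 1 - 1 : ℕ) : ℝ) * (2 / (1 - s * Rn ℓ) * (1 / (3 * n)))) =
        4 * (s / (1 - s * Rn ℓ)) * (ℓ / (3 * n)) := by
      rw [Nat.add_sub_cancel]
      field_simp
      ring
    linarith
  have hH2 := hH.trans (ENNReal.ofReal_le_ofReal hV)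
  have hV0 : 0 ≤ 4 * (s / (1 - s * Rn ℓ)) * (ℓ / (3 * n)) := by positivity
  have hmZ : Measurable (fun w : ℕ → Tor M → ℝ≥0 => Z (st M) 1 ℓ w (q M m) - 1) :=
    (measurable_Z (st M) 1 ℓ (q M m)).sub_const 1
  have key := trunc_of_eLpNorm (env (Tor M) ν) (win M n ℓ a) (measurable_win M n ℓ a) δ
    (4 * (s / (1 - s * Rn ℓ)) * (ℓ / (3 * n))) h hδ hV0 hh ?_
  · exact key
  · have hmp : MeasurePreserving (shift (a * ℓ)) (env (Tor M) ν) (env (Tor M) ν) :=
      measurePreserving_shift (Measure.pi (fun _ : Tor M => ν)) (a * ℓ)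
    have e : win M n ℓ a = (fun w : ℕ → Tor M → ℝ≥0 => Z (st M) 1 ℓ w (q M m) - 1) ∘
        shift (a * ℓ) := rfl
    rw [e, eLpNorm_comp_measurePreserving hmZ.aestronglyMeasurable hmp]
    exact hH2

end Pool.Agent.H58.QC
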