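import Mathlib
import Pool.Agent.H95.QC.Chain
import Pool.Agent.H58.QC.ND2

open MeasureTheory ProbabilityTheory Filter Topology
open scoped ENNReal NNReal BigOperators

namespace Pool.Agent.H58.QC

open Pool.Agent.H95 Pool.Agent.H95.QC

lemma Rn_sub_le_log {m m' : ℕ} (hm : 1 ≤ m) (h : m ≤ m') :
    Rn m' - Rn m ≤ 1 / 3 * Real.log ((m' : ℝ) / m) := by
  have hm0 : (0 : ℝ) < m := by exact_mod_cast hm
  induction m', h using Nat.le_induction with
  | base => simp [hm0.ne']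
  | succ k hk ih =>
    have hk0 : (0 : ℝ) < k := by exact_mod_cast (by omega : 0 < k)
    rw [Rn_succ]
    have h1 : uZ (k + 1) ≤ 1 / (3 * ((k : ℝ) + 1)) := by
      have := (k0.2 (k + 1) (by omega)).2
      push_cast at this
      exact this
    have h2 : 1 / ((k : ℝ) + 1) ≤ Real.log (((k : ℝ) + 1) / k) := by
      have := Real.one_sub_inv_le_log_of_pos (x := ((k : ℝ) + 1) / k) (by positivity)
      refine le_trans (le_of_eq ?_) this
      field_simp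
      ring
    have h3 : Real.log (((k + 1 : ℕ) : ℝ) / m) = Real.log (((k : ℝ) + 1) / k) +
        Real.log ((k : ℝ) / m) := by
      rw [← Real.log_mul (by positivity) (by positivity)]
      congr 1
      push_cast
      field_simp
    rw [h3]
    have h4 : 1 / (3 * ((k : ℝ) + 1)) = 1 / 3 * (1 / ((k : ℝ) + 1)) := by field_simp
    rw [h4] at h1
    linarith

lemma Rn_le_log {m : ℕ} (hm : 1 ≤ m) : Rn m ≤ 1 / 3 * (1 + Real.log m) := by
  have h1 := Rn_sub_le_log (le_refl 1) hm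
  have h2 : Rn 1 ≤ 1 / 3 := by
    have := (k0.2 1 le_rfl).2
    have e : Rn 1 = uZ 1 := by simp [Rn]
    rw [e]
    simpa using this
  rw [Nat.cast_one, div_one] at h1
  linarith

lemma sum_Rn_sub_self (ℓ : ℕ) : ∑ k ∈ Finset.range ℓ, (Rn ℓ - Rn k) ≤ (ℓ : ℝ) / 3 := by
  induction ℓ with
  | zero => simp
  | succ ℓ ih =>
    rw [Finset.sum_range_succ, Rn_succ]
    have h1 : ∑ k ∈ Finset.range ℓ, (Rn ℓ + uZ (ℓ + 1) - Rn k) =
        ∑ k ∈ Finset.range ℓ, (Rn ℓ - Rn k) + ℓ * uZ (ℓ + 1) := by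
      rw [← Finset.card_range ℓ, ← nsmul_eq_mul, ← Finset.sum_const, Finset.card_range,
        ← Finset.sum_add_distrib]
      refine Finset.sum_congr rfl (fun k _ => ?_)
      ring
    rw [h1]
    have h2 : uZ (ℓ + 1) * (3 * ((ℓ : ℝ) + 1)) ≤ 1 := by
      have := (k0.2 (ℓ + 1) (by omega)).2
      push_cast at this
      rwa [le_div_iff₀ (by positivity)] at this
    push_cast
    nlinarith

lemma sum_Rn_sub (T ℓ : ℕ) (hℓ : 1 ≤ ℓ) :
    ∑ k ∈ Finset.range ℓ, (Rn (T + k) - Rn k) ≤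
      (ℓ : ℝ) / 3 * (1 + Real.log (((T : ℝ) + ℓ) / ℓ)) := by
  have h1 : ∀ k ∈ Finset.range ℓ, Rn (T + k) - Rn k ≤
      1 / 3 * Real.log (((T : ℝ) + ℓ) / ℓ) + (Rn ℓ - Rn k) := by
    intro k hk
    rw [Finset.mem_range] at hk
    have h2 : Rn (T + k) ≤ Rn (T + ℓ) := Rn_mono (by omega)
    have h3 := Rn_sub_le_log hℓ (Nat.le_add_left ℓ T)
    push_cast at h3
    linarith
  refine (Finset.sum_le_sum h1).trans ?_
  rw [Finset.sum_add_distrib, Finset.sum_const, Finset.card_range, nsmul_eq_mul]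
  have := sum_Rn_sub_self ℓ
  linarith

lemma win_sum_upper {s : ℝ} (hs : 0 < s) {n T ℓ : ℕ} (hn : 1 ≤ n) (hℓ : ℓ ≤ n + T)
    (hD : 0 < 1 - s * Rn (n + T)) (k : ℕ) :
    s * ∑ j ∈ Finset.Icc 1 ℓ, Phi s (ℓ - j) * uZ (n + k + j) ≤
      s / (1 - s * Rn (n + T)) * (ℓ / (3 * n)) := by
  have hn0 : (0 : ℝ) < n := by exact_mod_cast hn
  have h1 : ∀ j ∈ Finset.Icc 1 ℓ, Phi s (ℓ - j) * uZ (n + k + j) ≤
      1 / (1 - s * Rn (n + T)) * (1 / (3 * n)) := by
    intro j hj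
    rw [Finset.mem_Icc] at hj
    have h2 : Phi s (ℓ - j) ≤ 1 / (1 - s * Rn (n + T)) :=
      (Phi_mono hs.le (by omega)).trans (Phi_le hs.le hD)
    have h3 : uZ (n + k + j) ≤ 1 / (3 * n) := by
      refine (k0.2 (n + k + j) (by omega)).2.trans ?_
      apply one_div_le_one_div_of_le (by positivity)
      have : (n : ℝ) ≤ ((n + k + j : ℕ) : ℝ) := by exact_mod_cast (by omega : n ≤ n + k + j)
      linarith
    exact mul_le_mul h2 h3 (Pool.Agent.H95.QC.uZ_nonneg _) (by positivity)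
  have h2 := mul_le_mul_of_nonneg_left (Finset.sum_le_sum h1) hs.le
  refine h2.trans (le_of_eq ?_)
  rw [Finset.sum_const, Nat.card_Icc, nsmul_eq_mul, Nat.add_sub_cancel]
  field_simp

lemma win_sum_lower {s : ℝ} (hs : 0 < s) {n T ℓ k : ℕ} (hn : 1 ≤ n) (hk : k + ℓ ≤ T)
    (hD : 0 < 1 - s * Rn (n + T)) (hb : s ≤ 1 - s * Rn (n + T)) {h : ℕ} (hh : 2 * h ≤ ℓ)
    (hDh : 1 - s * Rn h ≤ 2 * (1 - s * Rn (n + T))) :
    7 / 144 * (s / (1 - s * Rn (n + T))) * (ℓ / (n + T)) ≤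
      s * ∑ j ∈ Finset.Icc 1 ℓ, Phi s (ℓ - j) * uZ (n + k + j) := by
  set D := 1 - s * Rn (n + T) with hDdef
  have hn0 : (0 : ℝ) < n := by exact_mod_cast hn
  have hnT : (0 : ℝ) < (n : ℝ) + T := by positivity
  have hDhD : D ≤ 1 - s * Rn h := D_anti hs.le (by omega)
  have hDh0 : 0 < 1 - s * Rn h := by linarith
  have hPh : 7 / 18 / D ≤ Phi s h := by
    have h1 := Phi_lower k0 hs.le hDh0
    have h2 : s ^ 2 / (1 - s * Rn h) ^ 2 ≤ 1 := by
      rw [div_le_one (by positivity)]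
      exact pow_le_pow_left₀ hs.le (hb.trans hDhD) 2
    have h3 : 7 / 9 ≤ (1 - s * Rn h) * Phi s h := by linarith
    rw [div_le_iff₀ hD]
    have h4 := Phi_nonneg hs.le h
    nlinarith
  have h1 : ∑ j ∈ Finset.Icc 1 (ℓ - h), (7 / 18 / D) * (1 / (4 * ((n : ℝ) + T))) ≤
      ∑ j ∈ Finset.Icc 1 ℓ, Phi s (ℓ - j) * uZ (n + k + j) := by
    refine le_trans (Finset.sum_le_sum (g := fun j => Phi s (ℓ - j) * uZ (n + k + j)) ?_) ?_
    · intro j hj
      rw [Finset.mem_Icc] at hj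
      have h2 : 7 / 18 / D ≤ Phi s (ℓ - j) := hPh.trans (Phi_mono hs.le (by omega))
      have h3 : 1 / (4 * ((n : ℝ) + T)) ≤ uZ (n + k + j) := by
        refine le_trans ?_ (k0.2 (n + k + j) (by omega)).1
        apply one_div_le_one_div_of_le (by positivity)
        have : ((n + k + j : ℕ) : ℝ) ≤ ((n + T : ℕ) : ℝ) := by
          exact_mod_cast (by omega : n + k + j ≤ n + T)
        push_cast at this ⊢
        linarith
      exact mul_le_mul h2 h3 (by positivity) (Phi_nonneg hs.le _)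
    · apply Finset.sum_le_sum_of_subset_of_nonneg
      · exact Finset.Icc_subset_Icc_right (by omega)
      · intro j _ _
        exact mul_nonneg (Phi_nonneg hs.le _) (Pool.Agent.H95.QC.uZ_nonneg _)
  rw [Finset.sum_const, Nat.card_Icc, nsmul_eq_mul, Nat.add_sub_cancel] at h1
  have h2 : (ℓ : ℝ) / 2 ≤ ((ℓ - h : ℕ) : ℝ) := by
    rw [Nat.cast_sub (by omega)]
    have : (2 : ℝ) * h ≤ ℓ := by exact_mod_cast hh
    linarith
  have h3 : (ℓ : ℝ) / 2 * (7 / 18 / D * (1 / (4 * ((n : ℝ) + T)))) ≤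
      ((ℓ - h : ℕ) : ℝ) * (7 / 18 / D * (1 / (4 * ((n : ℝ) + T)))) :=
    mul_le_mul_of_nonneg_right h2 (by positivity)
  have h4 := mul_le_mul_of_nonneg_left (h3.trans h1) hs.le
  refine le_trans (le_of_eq ?_) h4
  field_simp
  ring

lemma trunc_calc {Λ J b δ y ε' κ' ε : ℝ} (hΛ : 2 ≤ Λ) (hb : 1 ≤ b) (hε' : 0 < ε')
    (hJ : Real.exp (ε' * b) ≤ J) (hδ : 0 < δ) (hδ1 : δ ≤ 1) (hy0 : 0 ≤ y)
    (hy : y ≤ 3 * Λ / (J * b)) (hδb : κ' ≤ b * δ)
    (h6 : 9 * Λ ^ 2 * Real.exp (-(ε' * κ' / 2)) ≤ ε) :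
    J * ((1 / √b) ^ (-δ) * y ^ (1 + δ / 2)) ≤ ε / b := by
  have hJ0 : 0 < J := (Real.exp_pos _).trans_le hJ
  have hb0 : 0 < b := by linarith
  have h1 : (1 / √b) ^ (-δ) = b ^ (δ / 2) := by
    rw [one_div, Real.inv_rpow (by positivity), ← Real.rpow_neg (by positivity), neg_neg,
      Real.sqrt_eq_rpow, ← Real.rpow_mul hb0.le]
    congr 1
    ring
  have h2 : y ^ (1 + δ / 2) ≤ (3 * Λ / (J * b)) ^ (1 + δ / 2) :=
    Real.rpow_le_rpow hy0 hy (by positivity)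
  have h3 : (3 * Λ / (J * b)) ^ (1 + δ / 2) =
      (3 * Λ) ^ (1 + δ / 2) / ((J * b) * (J ^ (δ / 2) * b ^ (δ / 2))) := by
    rw [Real.div_rpow (by positivity) (by positivity), Real.rpow_add (x := J * b) (by positivity),
      Real.rpow_one, Real.mul_rpow hJ0.le hb0.le]
  have h4 : (3 * Λ) ^ (1 + δ / 2) ≤ 9 * Λ ^ 2 := by
    have : (3 * Λ) ^ (1 + δ / 2) ≤ (3 * Λ) ^ (2 : ℝ) :=
      Real.rpow_le_rpow_of_exponent_le (by linarith) (by linarith)
    refine this.trans (le_of_eq ?_)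
    rw [Real.rpow_two]; ring
  have h5 : Real.exp (ε' * κ' / 2) ≤ J ^ (δ / 2) := by
    calc Real.exp (ε' * κ' / 2) ≤ Real.exp ((ε' * b) * (δ / 2)) := by
          apply Real.exp_le_exp.mpr
          nlinarith
      _ = Real.exp (ε' * b) ^ (δ / 2) := Real.exp_mul _ _
      _ ≤ J ^ (δ / 2) := Real.rpow_le_rpow (Real.exp_pos _).le hJ (by positivity)
  have hJd : 0 < J ^ (δ / 2) := by positivity
  have hbd : 0 < b ^ (δ / 2) := by positivity
  calc J * ((1 / √b) ^ (-δ) * y ^ (1 + δ / 2))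
      ≤ J * (b ^ (δ / 2) * ((3 * Λ) ^ (1 + δ / 2) / ((J * b) * (J ^ (δ / 2) * b ^ (δ / 2))))) := by
        rw [h1, ← h3]
        gcongr
    _ = (3 * Λ) ^ (1 + δ / 2) / J ^ (δ / 2) / b := by
        field_simp
    _ ≤ (9 * Λ ^ 2) / Real.exp (ε' * κ' / 2) / b := by
        gcongr
    _ = 9 * Λ ^ 2 * Real.exp (-(ε' * κ' / 2)) / b := by
        rw [Real.exp_neg]; ring
    _ ≤ ε / b := by gcongr

/-- all the largeness requirements on `κ = 1/s` -/
lemma large_kappa (Λ ε b₀ C₃ ε' : ℝ) (hΛ : 2 ≤ Λ) (hε : 0 < ε) (hε' : 0 < ε') :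
    ∃ k₀ : ℝ, 1 ≤ k₀ ∧ ∀ κ : ℝ, k₀ ≤ κ →
      b₀ ≤ κ ^ (9 / 10 : ℝ) ∧ 1 ≤ κ ^ (9 / 10 : ℝ) ∧ Real.log (32 * Λ) ≤ κ ^ (9 / 10 : ℝ) ∧
      8 * Λ / ε ≤ κ ^ (9 / 10 : ℝ) ∧
      2 * Real.exp (κ / 4) ≤ min (1 / 4) ε * Real.exp (3 * κ / 4 - 1) ∧
      9 * Λ ^ 2 * Real.exp (-(ε' * κ ^ (2 / 5 : ℝ) / 2)) ≤ ε ∧
      3 * (4 + (4 * C₃ ^ 2) ^ (1 / 3 : ℝ)) ≤ κ ^ (1 / 15 : ℝ) := by
  have t1 : Tendsto (fun κ : ℝ => κ ^ (9 / 10 : ℝ)) atTop atTop :=
    tendsto_rpow_atTop (by norm_num)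
  have t2 : Tendsto (fun κ : ℝ => κ ^ (1 / 15 : ℝ)) atTop atTop :=
    tendsto_rpow_atTop (by norm_num)
  have t3 : Tendsto (fun κ : ℝ => Real.exp (κ / 2)) atTop atTop :=
    Real.tendsto_exp_atTop.comp (tendsto_id.atTop_div_const (by norm_num))
  have t4 : Tendsto (fun κ : ℝ => Real.exp (ε' * κ ^ (2 / 5 : ℝ) / 2)) atTop atTop := by
    apply Real.tendsto_exp_atTop.comp
    apply Tendsto.atTop_div_const (by norm_num)
    exact (tendsto_rpow_atTop (by norm_num)).const_mul_atTop hε'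
  have hη : 0 < min (1 / 4) ε := lt_min (by norm_num) hε
  have ev := (t1.eventually_ge_atTop b₀).and ((t1.eventually_ge_atTop 1).and
    ((t1.eventually_ge_atTop (Real.log (32 * Λ))).and ((t1.eventually_ge_atTop (8 * Λ / ε)).and
    ((t3.eventually_ge_atTop (2 * Real.exp 1 / min (1 / 4) ε)).and
    ((t4.eventually_ge_atTop (9 * Λ ^ 2 / ε)).and
    (t2.eventually_ge_atTop (3 * (4 + (4 * C₃ ^ 2) ^ (1 / 3 : ℝ)))))))))
  obtain ⟨k₁, hk₁⟩ := eventually_atTop.mp ev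
  refine ⟨max 1 k₁, le_max_left _ _, fun κ hκ => ?_⟩
  obtain ⟨g1, g2, g3, g4, g5, g6, g7⟩ := hk₁ κ ((le_max_right _ _).trans hκ)
  refine ⟨g1, g2, g3, g4, ?_, ?_, g7⟩
  · rw [div_le_iff₀ hη] at g5
    have h1 : Real.exp (3 * κ / 4 - 1) = Real.exp (κ / 2) * Real.exp (κ / 4) / Real.exp 1 := by
      rw [← Real.exp_add, ← Real.exp_sub]
      congr 1
      ring
    rw [h1]
    have h2 : 0 < Real.exp (κ / 4) := Real.exp_pos _
    have h3 : 0 < Real.exp 1 := Real.exp_pos _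
    calc 2 * Real.exp (κ / 4) = (2 * Real.exp 1) * Real.exp (κ / 4) / Real.exp 1 := by
          field_simp
      _ ≤ (Real.exp (κ / 2) * min (1 / 4) ε) * Real.exp (κ / 4) / Real.exp 1 := by gcongr
      _ = _ := by ring
  · rw [div_le_iff₀ hε] at g6
    rw [Real.exp_neg, ← div_eq_mul_inv, div_le_iff₀ (Real.exp_pos _)]
    linarith

theorem nd (hN : TargetN.{0}) (hND1 : TargetND1) (hND2 : TargetND2) : TargetND := by
  intro Λ θ hΛ hθ hθ2 hLT C₃ hC3
  obtain ⟨CX, hCX, hLT⟩ := hLT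
  have hΛ2 : (2 : ℝ) ≤ Λ := by exact_mod_cast hΛ
  have hΛ0 : (0 : ℝ) < Λ := by linarith
  obtain ⟨ε, b₀, c₄, hε, hb₀, hc₄, hN⟩ := hN (1 / (100 * Λ)) (2 * Λ) (CX ^ 2) (2 * θ)
    (by positivity) (by positivity) (by positivity) (by linarith) hθ2
  set ε' : ℝ := min (1 / 4) (ε / Λ) with hε'def
  have hε' : 0 < ε' := lt_min (by norm_num) (by positivity)
  have hε'4 : ε' ≤ 1 / 4 := min_le_left _ _
  have hε'Λ : ε' ≤ ε / Λ := min_le_right _ _
  obtain ⟨k₀, hk₀, hk⟩ := large_kappa Λ ε b₀ C₃ ε' hΛ2 hε hε'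
  refine ⟨c₄, k₀, hc₄, by linarith, ?_⟩
  intro M n T _ ν s hwt hs hκ hint h3m hn hT1 hT2 hM hb hRn
  haveI := hwt.prob
  haveI : IsProbabilityMeasure (env (Tor M) ν) := env_prob
  obtain ⟨f1, f2, f3, f4, f5, f6, f7⟩ := hk (1 / s) hκ
  have hκ1 : 1 ≤ 1 / s := hk₀.trans hκ
  set κ : ℝ := 1 / s with hκdef
  have hκ0 : 0 < κ := by positivity
  have hsκ : s * κ = 1 := by rw [hκdef]; field_simp
  have hn0 : (0 : ℝ) < n := by exact_mod_cast hn
  set D : ℝ := 1 - s * Rn (n + T) with hD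
  have hbpos : 0 < D / s := lt_of_lt_of_le (by positivity) hb
  have hD0 : 0 < D := (div_pos_iff_of_pos_right hs).mp hbpos
  set b : ℝ := D / s with hbdef
  have hsb : s * b = D := by rw [hbdef]; field_simp
  have h1b : s / D = 1 / b := by rw [hbdef, one_div_div]
  have hb1 : 1 ≤ b := f2.trans hb
  have hb0 : 0 < b := by linarith
  have hsD : s ≤ D := by nlinarith
  have hD1 : D ≤ 1 := by
    have : 0 ≤ s * Rn (n + T) := mul_nonneg hs.le (Rn_nonneg _)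
    linarith
  have hbκ : b ≤ κ := by
    rw [hbdef, hκdef]
    exact div_le_div_of_nonneg_right hD1 hs.le
  have hnT : n ≤ T := by
    have : 2 * n ≤ Λ * n := Nat.mul_le_mul_right n hΛ
    omega
  have hnT' : (n : ℝ) ≤ T := by exact_mod_cast hnT
  have hT0 : (0 : ℝ) < T := hn0.trans_le hnT'
  have hT2' : (n : ℝ) + T ≤ 2 * Λ * n := by exact_mod_cast hT2
  -- `n` is large
  have hnexp : Real.exp (3 * κ / 4 - 1) ≤ n := by
    have h1 := Rn_le_log hn
    have h2 : κ / 4 ≤ Rn n := by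
      have := mul_le_mul_of_nonneg_right hRn hκ0.le
      nlinarith
    rw [← Real.le_log_iff_exp_le hn0]
    linarith
  -- the number of windows
  set J : ℕ := ⌈Real.exp (ε' * b)⌉₊ with hJdef
  have hJ1 : Real.exp (ε' * b) ≤ J := Nat.le_ceil _
  have hexp1 : 1 ≤ Real.exp (ε' * b) := Real.one_le_exp (by positivity)
  have hJ2 : (J : ℝ) ≤ 2 * Real.exp (ε' * b) := by
    have := Nat.ceil_lt_add_one (Real.exp_pos (ε' * b)).le
    linarith
  have hJR : (0 : ℝ) < J := by linarith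
  have hJpos : 0 < J := by exact_mod_cast hJR
  have hJn : (J : ℝ) ≤ min (1 / 4) ε * n := by
    have hη : 0 < min (1 / 4) ε := lt_min (by norm_num) hε
    calc (J : ℝ) ≤ 2 * Real.exp (ε' * b) := hJ2
      _ ≤ 2 * Real.exp (κ / 4) := by
          have : ε' * b ≤ κ / 4 := by nlinarith
          have := Real.exp_le_exp.mpr this
          linarith
      _ ≤ _ := f5
      _ ≤ _ := mul_le_mul_of_nonneg_left hnexp hη.le
  have hJn4 : (J : ℝ) ≤ 1 / 4 * n :=
    hJn.trans (mul_le_mul_of_nonneg_right (min_le_left _ _) hn0.le)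
  have hJnε : (J : ℝ) ≤ ε * n :=
    hJn.trans (mul_le_mul_of_nonneg_right (min_le_right _ _) hn0.le)
  have h4J : 4 * J ≤ T := by
    have : (4 : ℝ) * J ≤ T := by linarith
    exact_mod_cast this
  -- the length of the windows
  set ℓ : ℕ := T / J with hℓdef
  have hℓ4 : 4 ≤ ℓ := (Nat.le_div_iff_mul_le hJpos).mpr h4J
  have hJℓ : J * ℓ ≤ T := Nat.mul_div_le T J
  have hJℓ' : T - J * ℓ < J := by
    have h1 := Nat.div_add_mod T J
    have h2 := Nat.mod_lt T hJpos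
    rw [← hℓdef] at h1
    omega
  have hℓT : ℓ ≤ T := Nat.div_le_self T J
  have hℓ0 : (0 : ℝ) < ℓ := by exact_mod_cast (by omega : 0 < ℓ)
  have hJℓR : (J : ℝ) * ℓ ≤ T := by exact_mod_cast hJℓ
  have hJℓR2 : (T : ℝ) / 2 ≤ J * ℓ := by
    have h1 : T ≤ J * ℓ + J := by omega
    have h2 : (T : ℝ) ≤ J * ℓ + J := by exact_mod_cast h1
    linarith
  have hTn : (T : ℝ) ≤ 2 * Λ * n := by linarith
  -- half windows
  have hDh : 1 - s * Rn (ℓ / 2) ≤ 2 * D := by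
    set h : ℕ := ℓ / 2 with hh
    have hh1 : 1 ≤ h := by omega
    have hh4 : (ℓ : ℝ) ≤ 4 * h := by exact_mod_cast (by omega : ℓ ≤ 4 * h)
    have hh0 : (0 : ℝ) < h := by exact_mod_cast hh1
    have h1 := Rn_sub_le_log hh1 (by omega : h ≤ n + T)
    have h2 : Real.log (((n + T : ℕ) : ℝ) / h) ≤ 2 * b := by
      have h3 : ((n + T : ℕ) : ℝ) / h ≤ 32 * Λ * Real.exp (ε' * b) := by
        push_cast
        rw [div_le_iff₀ hh0]
        have h4 : (n : ℝ) ≤ 8 * (J * h) := by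
          have : (J : ℝ) * ℓ ≤ J * (4 * h) := mul_le_mul_of_nonneg_left hh4 hJR.le
          linarith
        calc (n : ℝ) + T ≤ 2 * Λ * n := hT2'
          _ ≤ 2 * Λ * (8 * (J * h)) := mul_le_mul_of_nonneg_left h4 (by positivity)
          _ ≤ 2 * Λ * (8 * ((2 * Real.exp (ε' * b)) * h)) := by gcongr
          _ = _ := by ring
      have h5 : Real.log (((n + T : ℕ) : ℝ) / h) ≤ Real.log (32 * Λ * Real.exp (ε' * b)) := by
        apply Real.log_le_log _ h3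
        push_cast; positivity
      rw [Real.log_mul (by positivity) (Real.exp_pos _).ne', Real.log_exp] at h5
      have h6 : Real.log (32 * Λ) ≤ b := f3.trans hb
      nlinarith
    have h3 : s * (Rn (n + T) - Rn h) ≤ s * (1 / 3 * (2 * b)) :=
      mul_le_mul_of_nonneg_left (by linarith) hs.le
    have h4 : s * (1 / 3 * (2 * b)) = 2 / 3 * D := by rw [← hsb]; ring
    have h5 : 1 - s * Rn h = D + s * (Rn (n + T) - Rn h) := by rw [hD]; ring
    rw [h5]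
    linarith
  have hDℓ : D ≤ 1 - s * Rn ℓ := D_anti hs.le (by omega)
  have hDℓ0 : 0 < 1 - s * Rn ℓ := by linarith
  -- ND1
  obtain ⟨g1, g2, g3, g4, g5, g6⟩ := hND1 M n T J ℓ ν s hwt hs hn (by omega) hJℓ hD0 hM
  set R : (ℕ → Tor M → ℝ≥0) → ℝ := fun w =>
    Z (st M) 1 T w (q M n) - 1 - ∑ a : Fin J, win M n ℓ a w with hR
  have hRm : Measurable R :=
    ((measurable_Z (st M) 1 T (q M n)).sub_const 1).sub
      (Finset.measurable_sum _ (fun a _ => (g1 a).1))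
  -- lower bound
  have hlow : 1 / (100 * Λ) / b ≤ ∑ a : Fin J, ∫ w, win M n ℓ a w ^ 2 ∂(env (Tor M) ν) := by
    have h1 : ∀ a : Fin J, 7 / 144 * (s / D) * (ℓ / (n + T)) ≤
        ∫ w, win M n ℓ a w ^ 2 ∂(env (Tor M) ν) := by
      intro a
      rw [g3 a a.isLt]
      apply win_sum_lower hs hn _ hD0 hsD (h := ℓ / 2) (by omega) hDh
      have : (a + 1) * ℓ ≤ J * ℓ := Nat.mul_le_mul_right ℓ a.isLt
      rw [add_mul, one_mul] at this
      omega
    have h2 := Finset.sum_le_sum (fun a (_ : a ∈ Finset.univ) => h1 a)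
    rw [Finset.sum_const, Finset.card_univ, Fintype.card_fin, nsmul_eq_mul] at h2
    refine le_trans ?_ h2
    rw [h1b]
    have h3 : 1 / (100 * (Λ : ℝ)) ≤ 7 / 144 * (((J : ℝ) * ℓ) / (n + T)) := by
      rw [← mul_div_assoc, div_le_div_iff₀ (by positivity) (by positivity)]
      nlinarith
    calc 1 / (100 * (Λ : ℝ)) / b ≤ (7 / 144 * (((J : ℝ) * ℓ) / (n + T))) / b :=
          div_le_div_of_nonneg_right h3 hb0.le
      _ = _ := by field_simp
  -- upper bound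
  have hup : ∑ a : Fin J, ∫ w, win M n ℓ a w ^ 2 ∂(env (Tor M) ν) ≤ 2 * Λ / b := by
    have h1 : ∀ a : Fin J, ∫ w, win M n ℓ a w ^ 2 ∂(env (Tor M) ν) ≤
        s / D * (ℓ / (3 * n)) := by
      intro a
      rw [g3 a a.isLt]
      exact win_sum_upper hs hn (by omega) hD0 (a * ℓ)
    have h2 := Finset.sum_le_sum (fun a (_ : a ∈ Finset.univ) => h1 a)
    rw [Finset.sum_const, Finset.card_univ, Fintype.card_fin, nsmul_eq_mul] at h2
    refine h2.trans ?_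
    rw [h1b]
    have h3 : (J * ℓ) / (3 * n) ≤ 2 * (Λ : ℝ) := by
      rw [div_le_iff₀ (by positivity)]
      nlinarith
    calc (J : ℝ) * (1 / b * (ℓ / (3 * n))) = ((J * ℓ) / (3 * n)) / b := by field_simp
      _ ≤ _ := by gcongr
  -- truncation
  have htr : ∑ a : Fin J, ∫ w in {w | 1 / √b < |win M n ℓ a w|}, win M n ℓ a w ^ 2
      ∂(env (Tor M) ν) ≤ ε / b := by
    set δ : ℝ := κ ^ (-(1 / 2) : ℝ) with hδdef
    have hδ : 0 < δ := by positivity
    have hδ1 : δ ≤ 1 := Real.rpow_le_one_of_one_le_of_nonpos hκ1 (by norm_num)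
    have hsmall : 3 / 2 * δ * max 4 ((4 * C₃ ^ 2 / s) ^ (1 / 3 : ℝ)) ≤ (1 - s * Rn ℓ) / 2 := by
      have e1 : 4 * C₃ ^ 2 / s = (4 * C₃ ^ 2) * κ := by rw [hκdef]; ring
      have h1 : max 4 ((4 * C₃ ^ 2 / s) ^ (1 / 3 : ℝ)) ≤
          (4 + (4 * C₃ ^ 2) ^ (1 / 3 : ℝ)) * κ ^ (1 / 3 : ℝ) := by
        have h2 : 1 ≤ κ ^ (1 / 3 : ℝ) := Real.one_le_rpow hκ1 (by norm_num)
        have h3 : 0 ≤ (4 * C₃ ^ 2) ^ (1 / 3 : ℝ) := by positivity
        rw [e1, Real.mul_rpow (by positivity) hκ0.le]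
        apply max_le
        · nlinarith
        · nlinarith
      have h2 : κ ^ (-(1 / 10) : ℝ) ≤ D := by
        have h3 : κ ^ (9 / 10 : ℝ) * s ≤ D := by
          rw [← hsb]; nlinarith
        refine le_trans (le_of_eq ?_) h3
        have h4 : s = κ ^ (-1 : ℝ) := by
          rw [Real.rpow_neg_one, hκdef]; simp
        rw [h4, ← Real.rpow_add hκ0]
        norm_num
      have h5 : κ ^ (-(1 / 10) : ℝ) = κ ^ (-(1 / 2) : ℝ) * κ ^ (1 / 3 : ℝ) * κ ^ (1 / 15 : ℝ) := by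
        rw [← Real.rpow_add hκ0, ← Real.rpow_add hκ0]
        norm_num
      have h6 : 0 < κ ^ (1 / 3 : ℝ) := by positivity
      calc 3 / 2 * δ * max 4 ((4 * C₃ ^ 2 / s) ^ (1 / 3 : ℝ))
          ≤ 3 / 2 * δ * ((4 + (4 * C₃ ^ 2) ^ (1 / 3 : ℝ)) * κ ^ (1 / 3 : ℝ)) := by gcongr
        _ = 1 / 2 * (δ * κ ^ (1 / 3 : ℝ) * (3 * (4 + (4 * C₃ ^ 2) ^ (1 / 3 : ℝ)))) := by ring
        _ ≤ 1 / 2 * (δ * κ ^ (1 / 3 : ℝ) * κ ^ (1 / 15 : ℝ)) := by gcongr
        _ = 1 / 2 * κ ^ (-(1 / 10) : ℝ) := by rw [h5]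
        _ ≤ (1 - s * Rn ℓ) / 2 := by linarith
    have h1 : ∀ a : Fin J, ∫ w in {w | 1 / √b < |win M n ℓ a w|}, win M n ℓ a w ^ 2
        ∂(env (Tor M) ν) ≤ (1 / √b) ^ (-δ) *
          (4 * (s / (1 - s * Rn ℓ)) * (ℓ / (3 * n))) ^ (1 + δ / 2) := by
      intro a
      apply hND2 M n ℓ a ν s C₃ δ hwt hs hC3 hint h3m hδ hδ1 hn (by omega) _ hDℓ0 hsmall
      · positivity
      · have : (a + 1) * ℓ ≤ J * ℓ := Nat.mul_le_mul_right ℓ a.isLt
        omega
    have h2 := Finset.sum_le_sum (fun a (_ : a ∈ Finset.univ) => h1 a)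
    rw [Finset.sum_const, Finset.card_univ, Fintype.card_fin, nsmul_eq_mul] at h2
    refine h2.trans ?_
    apply trunc_calc hΛ2 hb1 hε' hJ1 hδ hδ1 (by positivity) _ _ f6
    · have h3 : s / (1 - s * Rn ℓ) ≤ 1 / b := by
        rw [← h1b]
        exact div_le_div_of_nonneg_left hs.le hD0 hDℓ
      have h4 : (ℓ : ℝ) ≤ 2 * Λ * n / J := by
        rw [le_div_iff₀ hJR]; nlinarith
      calc 4 * (s / (1 - s * Rn ℓ)) * (ℓ / (3 * n))
          ≤ 4 * (1 / b) * ((2 * Λ * n / J) / (3 * n)) := by gcongr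
        _ = (8 / 3 * Λ) / (J * b) := by field_simp; ring
        _ ≤ 3 * Λ / (J * b) := by
            gcongr
            norm_num
    · have h3 : κ ^ (2 / 5 : ℝ) = κ ^ (9 / 10 : ℝ) * κ ^ (-(1 / 2) : ℝ) := by
        rw [← Real.rpow_add hκ0]
        norm_num
      rw [h3]
      exact mul_le_mul_of_nonneg_right hb hδ.le
  -- remainder
  have hR2 : ∫ w, R w ^ 2 ∂(env (Tor M) ν) ≤ ε / b := by
    refine g6.trans ?_
    have h1 := sum_Rn_sub T ℓ (by omega)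
    have h2 : Real.log (((T : ℝ) + ℓ) / ℓ) ≤ ε' * b + 3 := by
      have h3 : ((T : ℝ) + ℓ) / ℓ ≤ 8 * Real.exp (ε' * b) := by
        rw [div_le_iff₀ hℓ0]
        have h4 : (ℓ : ℝ) ≤ T := by exact_mod_cast hℓT
        nlinarith
      have h5 := Real.log_le_log (by positivity) h3
      rw [Real.log_mul (by norm_num) (Real.exp_pos _).ne', Real.log_exp] at h5
      have h6 : Real.log 8 ≤ 3 := by
        have h7 : Real.log 8 = 3 * Real.log 2 := by
          rw [show (8 : ℝ) = 2 ^ 3 by norm_num, Real.log_pow]; norm_num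
        have h8 := Real.log_two_lt_d9
        rw [h7]; linarith
      linarith
    have h3 : ∑ k ∈ Finset.range ℓ, (Rn (T + k) - Rn k) ≤ (ℓ : ℝ) / 3 * (4 + ε' * b) := by
      refine h1.trans ?_
      apply mul_le_mul_of_nonneg_left _ (by positivity)
      linarith
    have h4 : (J : ℝ) * (s / D) * (s / (3 * n)) * (1 / D) *
        ∑ k ∈ Finset.range ℓ, (Rn (T + k) - Rn k) ≤ (1 / 3 * ε) / b := by
      have h5 : (J : ℝ) * (s / D) * (s / (3 * n)) * (1 / D) = (J : ℝ) / (3 * n) * (1 / b) * (1 / b) := by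
        rw [← h1b]; field_simp
      rw [h5]
      calc (J : ℝ) / (3 * n) * (1 / b) * (1 / b) * ∑ k ∈ Finset.range ℓ, (Rn (T + k) - Rn k)
          ≤ (J : ℝ) / (3 * n) * (1 / b) * (1 / b) * ((ℓ : ℝ) / 3 * (4 + ε' * b)) := by gcongr
        _ = ((J * ℓ) / (9 * n) * (4 / b + ε')) / b := by field_simp; ring
        _ ≤ (1 / 3 * ε) / b := by
            refine div_le_div_of_nonneg_right ?_ hb0.le
            have h6 : 4 / b ≤ ε / (2 * Λ) := by
              have h7 : 8 * Λ / ε ≤ b := f4.trans hb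
              rw [div_le_iff₀ hε] at h7
              rw [div_le_div_iff₀ hb0 (by positivity)]
              linarith
            have h8 : (J * ℓ) / (9 * n) ≤ 2 * (Λ : ℝ) / 9 := by
              rw [div_le_div_iff₀ (by positivity) (by norm_num)]
              nlinarith
            calc (J * ℓ) / (9 * n) * (4 / b + ε') ≤ 2 * (Λ : ℝ) / 9 * (ε / (2 * Λ) + ε / Λ) := by
                  gcongr
              _ = 1 / 3 * ε := by field_simp; ring
    have h5 : s / D * (((T - J * ℓ : ℕ) : ℝ) / (3 * n)) ≤ (1 / 3 * ε) / b := by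
      rw [h1b]
      have h6 : ((T - J * ℓ : ℕ) : ℝ) ≤ ε * n := by
        have : ((T - J * ℓ : ℕ) : ℝ) ≤ J := by exact_mod_cast hJℓ'.le
        linarith
      calc 1 / b * (((T - J * ℓ : ℕ) : ℝ) / (3 * n)) ≤ 1 / b * ((ε * n) / (3 * n)) := by gcongr
        _ = _ := by field_simp
    have h6 : (1 / 3 * ε) / b + (1 / 3 * ε) / b ≤ ε / b := by
      rw [← add_div]
      gcongr
      linarith
    linarith
  -- lower tail
  have htail : (env (Tor M) ν).real {w | 1 + ∑ a : Fin J, win M n ℓ a w + R w < 2 * θ} ≤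
      CX ^ 2 / b ^ 2 := by
    have e : {w | 1 + ∑ a : Fin J, win M n ℓ a w + R w < 2 * θ} =
        {w | Z (st M) 1 T w (q M n) < 2 * θ} := by
      ext w
      simp only [hR, Set.mem_setOf_eq]
      ring_nf
    have hDT : D ≤ 1 - s * Rn T := D_anti hs.le (by omega)
    have hDT0 : 0 < 1 - s * Rn T := by linarith
    have h1 := hLT M n T ν s hwt hn (by omega) (by omega) hDT0
    rw [e, Measure.real]
    apply ENNReal.toReal_le_of_le_ofReal (by positivity)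
    refine h1.trans (ENNReal.ofReal_le_ofReal ?_)
    have h2 : s / (1 - s * Rn T) ≤ 1 / b := by
      rw [← h1b]
      exact div_le_div_of_nonneg_left hs.le hD0 hDT
    calc (CX * (s / (1 - s * Rn T))) ^ 2 ≤ (CX * (1 / b)) ^ 2 := by
          gcongr
      _ = _ := by ring
  have key := hN (ℕ → Tor M → ℝ≥0) (env (Tor M) ν) J (fun a => win M n ℓ a) R b (f1.trans hb)
    (fun a => (g1 a).1) g2 (fun a => (g1 a).2.1) (fun a => (g1 a).2.2) hlow hup htr hRm g4 hR2 g5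
    htail
  have e : (fun w => if 2 * θ ≤ 1 + ∑ a : Fin J, win M n ℓ a w + R w then
      Real.log (1 + ∑ a : Fin J, win M n ℓ a w + R w) else 0) =
      fun w => if 2 * θ ≤ Z (st M) 1 T w (q M n) then Real.log (Z (st M) 1 T w (q M n)) else 0 := by
    funext w
    have : 1 + ∑ a : Fin J, win M n ℓ a w + R w = Z (st M) 1 T w (q M n) := by
      simp only [hR]; ring
    rw [this]
  rw [e] at key
  rw [h1b, mul_one_div]
  exact key

end Pool.Agent.H58.QC
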